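import Pool.Agent.Q200.VL.LemM
import Mathlib.RingTheory.Valuation.LocalSubring

/-!
# The algebra of the coordinates of a closed system of tensors
-/

set_option linter.unusedSectionVars false

namespace Pool.Agent.Q200.VL

open MvPolynomial Module Matrix Pool.Agent.Q60.ED Pool.Agent.Q60.NP

variable {K : Type} [Field K] {ι : Type} [Fintype ι] [DecidableEq ι] {Q : Matrix ι ι K}
  (C : CSys Q)

/-- The coordinates of the tensors of the system. -/
def crdA : Set (MvPolynomial (ι × ι) K) := {f | ∃ m, ∃ s ∈ C.S m, ∃ I, f = xt s I}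

/-- The algebra of the coordinates. -/
noncomputable def B0 : Subalgebra K (MvPolynomial (ι × ι) K) := Algebra.adjoin K (crdA C)

/-- The algebra of the coordinates and the inverse of the square of the determinant. -/
noncomputable def B1 : Subalgebra K (FR K ι) :=
  Algebra.adjoin K ((algebraMap (MvPolynomial (ι × ι) K) (FR K ι)) '' crdA C ∪
    {(((XF K ι).det)⁻¹) ^ 2})

variable {C}

lemma xt_mem_B0 {m : ℕ} {s : (Fin m → ι) → K} (hs : s ∈ C.S m) (I : Fin m → ι) :
    xt s I ∈ B0 C := Algebra.subset_adjoin ⟨m, s, hs, I, rfl⟩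

lemma B0_le {f : MvPolynomial (ι × ι) K} (hf : f ∈ B0 C) :
    algebraMap (MvPolynomial (ι × ι) K) (FR K ι) f ∈ B1 C := by
  have h1 : B0 C ≤ (B1 C).comap (IsScalarTower.toAlgHom K (MvPolynomial (ι × ι) K)
      (FR K ι)) := by
    refine Algebra.adjoin_le fun g hg => ?_
    exact Algebra.subset_adjoin (Or.inl ⟨g, hg, rfl⟩)
  exact h1 hf

lemma A0_le_B0 (M : ℕ) {f : MvPolynomial (ι × ι) K} (hf : f ∈ C.A0 M) : f ∈ B0 C := by
  have h1 : C.A0 M ≤ B0 C := by
    refine Algebra.adjoin_mono ?_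
    rintro _ ⟨m, _, s, hs, I, rfl⟩
    exact ⟨m, s, hs, I, rfl⟩
  exact h1 hf

lemma A1_le_B1 (M : ℕ) {f : FR K ι} (hf : f ∈ C.A1 M) : f ∈ B1 C := by
  have h1 : C.A1 M ≤ B1 C := by
    refine Algebra.adjoin_mono ?_
    refine Set.union_subset_union_left _ (Set.image_mono ?_)
    rintro _ ⟨m, _, s, hs, I, rfl⟩
    exact ⟨m, s, hs, I, rfl⟩
  exact h1 hf

lemma dinv_mem_B1 : (((XF K ι).det)⁻¹) ^ 2 ∈ B1 C := Algebra.subset_adjoin (Or.inr rfl)

/-- The elements of the algebra are combinations of coordinates. -/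
lemma B0_span {f : MvPolynomial (ι × ι) K} (hf : f ∈ B0 C) :
    f ∈ Submodule.span K (crdA C) := by
  rw [B0] at hf
  induction hf using Algebra.adjoin_induction with
  | mem x hx => exact Submodule.subset_span hx
  | algebraMap r =>
    have h1 : (algebraMap K (MvPolynomial (ι × ι) K) r) =
        r • xt (fun _ => 1 : (Fin 0 → ι) → K) Fin.elim0 := by
      rw [xt, Fintype.sum_unique, mon, Finset.univ_eq_empty, Finset.prod_empty, map_one, mul_one,
        Algebra.algebraMap_eq_smul_one]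
    rw [h1]
    exact Submodule.smul_mem _ r (Submodule.subset_span ⟨0, _, C.one, _, rfl⟩)
  | add x y _ _ hx hy => exact Submodule.add_mem _ hx hy
  | mul x y _ _ hx hy =>
    have h1 := Submodule.mul_mem_mul hx hy
    rw [Submodule.span_mul_span] at h1
    refine Submodule.span_mono ?_ h1
    rintro _ ⟨_, ⟨m, s, hs, I, rfl⟩, _, ⟨n, t, ht, J, rfl⟩, rfl⟩
    exact ⟨m + n, tmul s t, C.mul hs ht, _, CSys.xt_mul_xt s t I J⟩

lemma det_sq_mem_B0 (hQ : Q.det ≠ 0) :
    (Matrix.mvPolynomialX ι ι K).det ^ 2 ∈ B0 C := A0_le_B0 2 (CSys.det_sq_mem hQ le_rfl)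

/-- Clearing of denominators. -/
lemma exists_denB (hQ : Q.det ≠ 0) {a : FR K ι} (ha : a ∈ B1 C) :
    ∃ k, ∃ f ∈ B0 C, algebraMap (MvPolynomial (ι × ι) K) (FR K ι) f =
      algebraMap (MvPolynomial (ι × ι) K) (FR K ι)
        (((Matrix.mvPolynomialX ι ι K).det ^ 2) ^ k) * a := by
  set d := (Matrix.mvPolynomialX ι ι K).det ^ 2 with hd
  have hdm : d ∈ B0 C := det_sq_mem_B0 hQ
  rw [B1] at ha
  induction ha using Algebra.adjoin_induction with
  | mem x hx =>
    rcases hx with ⟨f, hf, rfl⟩ | hx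
    · exact ⟨0, f, Algebra.subset_adjoin hf, by rw [pow_zero, map_one, one_mul]⟩
    · rw [Set.mem_singleton_iff] at hx
      refine ⟨1, 1, Subalgebra.one_mem _, ?_⟩
      rw [hx, pow_one, map_one, hd, map_pow, ← XF_det, ← mul_pow,
        mul_inv_cancel₀ (XF_det_ne K ι), one_pow]
  | algebraMap r =>
    refine ⟨0, algebraMap K _ r, Subalgebra.algebraMap_mem _ _, ?_⟩
    rw [pow_zero, map_one, one_mul, ← IsScalarTower.algebraMap_apply]
  | add x y _ _ hx hy =>
    obtain ⟨k, f, hf, h1⟩ := hx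
    obtain ⟨l, g, hg, h2⟩ := hy
    refine ⟨k + l, d ^ l * f + d ^ k * g, Subalgebra.add_mem _
      (Subalgebra.mul_mem _ (Subalgebra.pow_mem _ hdm _) hf)
      (Subalgebra.mul_mem _ (Subalgebra.pow_mem _ hdm _) hg), ?_⟩
    rw [map_add, map_mul, map_mul, h1, h2, pow_add, map_mul]
    ring
  | mul x y _ _ hx hy =>
    obtain ⟨k, f, hf, h1⟩ := hx
    obtain ⟨l, g, hg, h2⟩ := hy
    refine ⟨k + l, f * g, Subalgebra.mul_mem _ hf hg, ?_⟩
    rw [map_mul, h1, h2, pow_add, map_mul]
    ring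

/-- The form on the square of the volume tensor does not vanish. -/
lemma bf_vol_ne [CharZero K] (hQ : Q.det ≠ 0) {N k : ℕ} {t : (Fin N → ι) → K} {I0 : Fin N → ι}
    (h1 : t I0 = 1) (h2 : ∀ J, ∃ z : ℤ, t J = z)
    (h3 : ∀ (R : Type) [CommRing R] [Algebra K R] (g : Matrix ι ι R) (I : Fin N → ι),
      ∑ J, (∏ l, g (I l) (J l)) * algebraMap K R (t J) =
        (g.det ^ 2) ^ k * algebraMap K R (t I)) : bf (TP Q N) t t ≠ 0 := by
  have h4 : bf (TP Q N) t t = (Q.det ^ 2) ^ k * ∑ I, t I * t I := by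
    rw [bf, Finset.mul_sum]
    refine Finset.sum_congr rfl fun I _ => ?_
    have h5 := h3 K Q I
    simp only [Algebra.algebraMap_self, RingHom.id_apply] at h5
    rw [mul_left_comm, ← h5, Finset.mul_sum]
    exact Finset.sum_congr rfl fun J _ => by rw [TP_apply, mul_assoc]
  rw [h4]
  refine mul_ne_zero (pow_ne_zero _ (pow_ne_zero _ hQ)) ?_
  choose z hz using h2
  intro h5
  have h6 : ∑ J, z J * z J = 0 := by
    have h7 : ((∑ J, z J * z J : ℤ) : K) = 0 := by
      rw [Int.cast_sum, ← h5]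
      exact Finset.sum_congr rfl fun J _ => by rw [Int.cast_mul, ← hz]
    exact_mod_cast h7
  rw [Finset.sum_eq_zero_iff_of_nonneg fun J _ => mul_self_nonneg _] at h6
  have h8 := mul_self_eq_zero.1 (h6 I0 (Finset.mem_univ _))
  rw [hz, h8, Int.cast_zero] at h1
  exact zero_ne_one h1

/-- The coordinates of the volume tensor. -/
lemma xt_vol {N k : ℕ} {t : (Fin N → ι) → K}
    (h3 : ∀ (R : Type) [CommRing R] [Algebra K R] (g : Matrix ι ι R) (I : Fin N → ι),
      ∑ J, (∏ l, g (I l) (J l)) * algebraMap K R (t J) =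
        (g.det ^ 2) ^ k * algebraMap K R (t I)) (I : Fin N → ι) :
    xt t I = ((Matrix.mvPolynomialX ι ι K).det ^ 2) ^ k * MvPolynomial.C (t I) := by
  have e1 := h3 (MvPolynomial (ι × ι) K) (Matrix.mvPolynomialX ι ι K) I
  rw [MvPolynomial.algebraMap_eq] at e1
  rw [← e1, xt]
  refine Finset.sum_congr rfl fun J _ => ?_
  rw [mul_comm]
  rfl

/-- **The tensors of the system are determined by the algebra of the coordinates.** -/
theorem mem_of_B1 [CharZero K] (hQ : Q.det ≠ 0) {n : ℕ} {t : (Fin n → ι) → K}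
    (h : ∀ I, algebraMap (MvPolynomial (ι × ι) K) (FR K ι) (xt t I) ∈ B1 C) : t ∈ C.S n := by
  set d := (Matrix.mvPolynomialX ι ι K).det ^ 2 with hd
  have hdm : d ∈ B0 C := det_sq_mem_B0 hQ
  choose k f hf hfa using fun I => exists_denB hQ (h I)
  set kk := ∑ I, k I with hkk
  have hk : ∀ I, k I ≤ kk := fun I => Finset.single_le_sum (fun _ _ => Nat.zero_le _)
    (Finset.mem_univ I)
  have h1 : ∀ I, d ^ kk * xt t I ∈ B0 C := by
    intro I
    have h2 : f I = d ^ k I * xt t I := by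
      apply IsFractionRing.injective (MvPolynomial (ι × ι) K) (FR K ι)
      rw [hfa, map_mul]
    have h3 : d ^ kk * xt t I = d ^ (kk - k I) * f I := by
      rw [h2, ← mul_assoc, ← pow_add, Nat.sub_add_cancel (hk I)]
    rw [h3]
    exact Subalgebra.mul_mem _ (Subalgebra.pow_mem _ hdm _) (hf I)
  obtain ⟨N, v, I0, hv, hv1, hvz, hdet⟩ := CSys.exists_vpow (C := C) hQ kk
  have h2 : tmul v t ∈ C.S (N + n) := by
    refine mem_of_xt C.S (fun n σ t ht => C.perm σ ht) fun L => ?_
    obtain ⟨A, B, rfl⟩ : ∃ (A : Fin N → ι) (B : Fin n → ι), L = Fin.append A B :=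
      ⟨fun k => L (Fin.castAdd n k), fun k => L (Fin.natAdd N k),
        (Fin.append_castAdd_natAdd (f := L)).symm⟩
    rw [← CSys.xt_mul_xt, xt_vol hdet]
    have h3 : ((Matrix.mvPolynomialX ι ι K).det ^ 2) ^ kk * MvPolynomial.C (v A) * xt t B =
        v A • (d ^ kk * xt t B) := by
      rw [MvPolynomial.smul_eq_C_mul, hd]
      ring
    rw [h3]
    exact Submodule.smul_mem _ _ (B0_span (h1 B))
  have h3 := C.contr hv h2
  have h4 : (fun J => ∑ I, ∑ I', v I * TP Q N I I' * tmul v t (Fin.append I' J)) =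
      bf (TP Q N) v v • t := by
    funext J
    rw [Pi.smul_apply, smul_eq_mul, bf, Finset.sum_mul]
    refine Finset.sum_congr rfl fun I _ => ?_
    rw [Finset.sum_mul]
    refine Finset.sum_congr rfl fun I' _ => ?_
    rw [tmul]
    simp only [Fin.append_left, Fin.append_right]
    ring
  rw [h4] at h3
  have h5 := Submodule.smul_mem _ (bf (TP Q N) v v)⁻¹ h3
  rwa [smul_smul, inv_mul_cancel₀ (bf_vol_ne hQ hv1 hvz hdet), one_smul] at h5

/-- Valuation rings which dominate the algebra of the coordinates. -/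
theorem exists_val (I : Ideal (B1 C)) (hI : I ≠ ⊤) : ∃ O : ValuationSubring (FR K ι),
    (∀ b ∈ B1 C, b ∈ O) ∧ ∀ b ∈ I, (b : FR K ι) ∈ O.nonunits := by
  obtain ⟨O, h1, h2⟩ := Ideal.image_subset_nonunits_valuationSubring
    (A := (B1 C).toSubring) I hI
  exact ⟨O, fun b hb => h1 hb, fun b hb => h2 ⟨b, hb, rfl⟩⟩

/-- **Numerically trivial tensors vanish modulo the maximal ideal of a valuation ring.** -/
theorem rad_val [CharZero K] (hQ : Q.det ≠ 0) {n : ℕ} {v : (Fin n → ι) → K} (hv : v ∈ C.rad n) :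
    ∃ O : ValuationSubring (FR K ι), (∀ b ∈ B1 C, b ∈ O) ∧
      ∀ I, algebraMap (MvPolynomial (ι × ι) K) (FR K ι) (xt v I) ∈ O.nonunits := by
  classical
  let x : (Fin n → ι) → B1 C := fun I =>
    ⟨algebraMap (MvPolynomial (ι × ι) K) (FR K ι) (xt v I), B0_le (xt_mem_B0 hv.1 I)⟩
  let I : Ideal (B1 C) := Ideal.span (Set.range x)
  have hI : I ≠ ⊤ := by
    intro hI
    have h1 : (1 : B1 C) ∈ I := by rw [hI]; trivial
    rw [Ideal.mem_span_range_iff_exists_fun] at h1
    obtain ⟨a, ha⟩ := h1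
    set d := (Matrix.mvPolynomialX ι ι K).det ^ 2 with hd
    have hdm : d ∈ B0 C := det_sq_mem_B0 hQ
    choose k f hf hfa using fun J => exists_denB hQ (a J).2
    set kk := ∑ J, k J with hkk
    have hk : ∀ J, k J ≤ kk := fun J => Finset.single_le_sum (fun _ _ => Nat.zero_le _)
      (Finset.mem_univ J)
    have h2 : d ^ kk = ∑ J, d ^ (kk - k J) * f J * xt v J := by
      apply IsFractionRing.injective (MvPolynomial (ι × ι) K) (FR K ι)
      rw [map_sum]
      have e1 : ∀ J, algebraMap (MvPolynomial (ι × ι) K) (FR K ι)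
          (d ^ (kk - k J) * f J * xt v J) =
          algebraMap (MvPolynomial (ι × ι) K) (FR K ι) (d ^ kk) *
            ((a J : FR K ι) * algebraMap (MvPolynomial (ι × ι) K) (FR K ι) (xt v J)) := by
        intro J
        rw [map_mul, map_mul, hfa J]
        have e2 : d ^ kk = d ^ (kk - k J) * d ^ k J := by
          rw [← pow_add, Nat.sub_add_cancel (hk J)]
        rw [e2, map_mul]
        ring
      simp only [e1]
      rw [← Finset.mul_sum]
      have e3 : ∑ J, (a J : FR K ι) * algebraMap (MvPolynomial (ι × ι) K) (FR K ι) (xt v J) =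
          1 := by
        have e4 := congrArg (fun x : B1 C => (x : FR K ι)) ha
        simp only [AddSubmonoidClass.coe_finsetSum, MulMemClass.coe_mul,
          OneMemClass.coe_one] at e4
        exact e4
      rw [e3, mul_one]
    obtain ⟨N, t, I0, ht, ht1, htz, hdet⟩ := CSys.exists_vpow (C := C) hQ kk
    have h3 : t ∈ C.rad N := by
      refine mem_of_xt C.rad (fun n σ t ht => CSys.rad_perm σ ht) fun L => ?_
      rw [xt_vol hdet, ← hd, h2, Finset.sum_mul]
      refine Submodule.sum_mem _ fun J _ => ?_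
      have h4 : d ^ (kk - k J) * f J * xt v J * MvPolynomial.C (t L) =
          t L • (d ^ (kk - k J) * f J * xt v J) := by
        rw [MvPolynomial.smul_eq_C_mul]
        ring
      rw [h4]
      refine Submodule.smul_mem _ _ ?_
      have h5 : d ^ (kk - k J) * f J ∈ B0 C :=
        Subalgebra.mul_mem _ (Subalgebra.pow_mem _ hdm _) (hf J)
      have h6 := Submodule.mul_mem_mul (B0_span h5)
        (Submodule.mem_span_singleton_self (R := K) (xt v J))
      rw [Submodule.span_mul_span] at h6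
      refine Submodule.span_mono ?_ h6
      rintro _ ⟨_, ⟨m, s, hs, J', rfl⟩, _, rfl, rfl⟩
      exact ⟨m + n, tmul s v, CSys.rad_mul hs hv, _, CSys.xt_mul_xt s v J' J⟩
    exact bf_vol_ne hQ ht1 htz hdet (h3.2 t ht)
  obtain ⟨O, h1, h2⟩ := exists_val I hI
  exact ⟨O, h1, fun J => h2 (x J) (Ideal.subset_span ⟨J, rfl⟩)⟩

end Pool.Agent.Q200.VL
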