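import Pool.Agent.Q200.VL.Lat
import Pool.Agent.H914R2.PDesc

/-!
# Lattices given by matrices, after extension of the coefficients
-/

open CategoryTheory AlgebraicGeometry TensorProduct

set_option linter.unusedSectionVars false

universe u v

namespace Pool.Agent.Q200.VL

open Module Matrix
open Pool.Agent.H914 Pool.Agent.H914.VarClass Pool.Agent.H914.VarClass.Obj
  Pool.Agent.H914.WeilCohomology
open Pool.Agent.H447 Pool.Agent.Q56.BR Pool.Agent.H281R3.HT
open Pool.Agent.Y133.Half Pool.Agent.Y121.AH Pool.Agent.Q60.ED Pool.Agent.Q60.TD Pool.Agent.Q60.NP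
open Pool.Agent.Q60.HD (wd wd_zero wd_succ wd_map wd_prj wd_append wd_PH wb_PH sum_append' par_op
  two_inv par_prod par_pw sg sg_mem sg_xp wb_xp)

variable {k : Type u} [Field k] {𝒱 : VarClass k} {ops : CycleOps 𝒱}
  {W : WeilCohomology.{u, 0} ops} {X Y Z : 𝒱.Obj} {ι : Type} [Fintype ι] [DecidableEq ι]

/-- The coordinates in two bases. -/
lemma wb_change (f e : Basis ι W.K (W.H X)) (n : ℕ) (c : W.H (pw X n)) (w : Fin (n + 1) → ι) :
    (wb f n).repr c w =
      ∑ J : Fin (n + 1) → ι, (∏ l, f.toMatrix e (w l) (J l)) * (wb e n).repr c J := by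
  have h1 : ∀ J : Fin (n + 1) → ι, wb e n J =
      ∑ w : Fin (n + 1) → ι, (∏ l, f.toMatrix e (w l) (J l)) • wb f n w := by
    intro J
    rw [← mm_basis, ← mm_sum f n fun l i => f.toMatrix e i (J l)]
    congr 1
    funext l
    exact (f.sum_toMatrix_smul_self e (J l)).symm
  conv_lhs => rw [← (wb e n).sum_repr c]
  simp only [map_sum, map_smul, Finsupp.coe_finsetSum, Finset.sum_apply, Finsupp.smul_apply,
    smul_eq_mul]
  refine Finset.sum_congr rfl fun J _ => ?_
  rw [h1]
  simp only [map_sum, map_smul, Finsupp.coe_finsetSum, Finset.sum_apply, Finsupp.smul_apply,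
    Basis.repr_self, smul_eq_mul]
  rw [Finset.sum_eq_single w]
  · rw [Finsupp.single_eq_same]
    ring
  · intro w' _ hw
    rw [Finsupp.single_eq_of_ne (Ne.symm hw), mul_zero]
  · intro h; exact absurd (Finset.mem_univ _) h

section Em

variable (F : Type) [Field F] [Algebra W.K F]

/-- The extension of classes as a ring homomorphism. -/
noncomputable def emR (Y : 𝒱.Obj) : W.H Y →+* (baseW W F).H Y where
  toFun := em W F
  map_one' := rfl
  map_mul' := em_mul
  map_zero' := em_zero
  map_add' := em_add

lemma emR_apply (c : W.H Y) : emR F Y c = em W F c := rfl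

/-- The extension of scalars as a ring homomorphism. -/
noncomputable def exR (W : WeilCohomology.{u, 0} ops) (F : Type) [Field F] [Algebra W.K F] :
    W.K →+* (baseW W F).K := algebraMap W.K F

lemma exR_apply (c : W.K) : exR W F c = ex W F c := rfl

variable {F}

lemma repr_em {κ : Type} [Fintype κ] {b : Basis κ W.K (W.H Y)}
    {b' : Basis κ (baseW W F).K ((baseW W F).H Y)} (h : ∀ i, b' i = em W F (b i)) (c : W.H Y)
    (i : κ) : b'.repr (em W F c) i = ex W F (b.repr c i) := by
  classical
  have h1 : em W F c = ∑ j, ex W F (b.repr c j) • b' j := by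
    conv_lhs => rw [← b.sum_repr c]
    rw [← emR_apply, map_sum]
    refine Finset.sum_congr rfl fun j _ => ?_
    rw [emR_apply, em_smul, h]
  rw [h1]
  simp only [map_sum, map_smul, Finsupp.coe_finsetSum, Finset.sum_apply, Finsupp.smul_apply,
    Basis.repr_self, smul_eq_mul]
  rw [Finset.sum_eq_single i]
  · rw [Finsupp.single_eq_same, mul_one]
  · intro w' _ hw
    rw [Finsupp.single_eq_of_ne (Ne.symm hw), mul_zero]
  · intro h; exact absurd (Finset.mem_univ _) h

variable (e : Basis ι W.K (W.H X)) (F)

/-- The basis with extended coefficients. -/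
noncomputable def eb : Basis ι (baseW W F).K ((baseW W F).H X) :=
  (e.baseChange F : Basis ι F (F ⊗[W.K] W.H X))

lemma eb_apply (j : ι) : eb F e j = em W F (e j) := Basis.baseChange_apply F e j

lemma eb_gr {a : ι → ℕ} (he : ∀ j, e j ∈ W.gr X (a j)) (j : ι) :
    eb F e j ∈ (baseW W F).gr X (a j) := by
  rw [eb_apply]
  exact em_gr (he j)

lemma wb_eb (n : ℕ) (w : Fin (n + 1) → ι) : wb (eb F e) n w = em W F (wb e n w) := by
  rw [wb_eq, wb_eq, ← emR_apply, map_list_prod, List.map_ofFn]
  congr 2
  funext i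
  rw [eb_apply, em_map]
  rfl

lemma wb_eb_repr (n : ℕ) (c : W.H (pw X n)) (w : Fin (n + 1) → ι) :
    (wb (eb F e) n).repr (em W F c) w = ex W F (tn e n c w) :=
  repr_em (wb_eb F e n) c w

lemma tr_eb (i j : ι) : (baseW W F).tr X (eb F e i * eb F e j) = ex W F (QW e i j) := by
  rw [eb_apply, eb_apply, ← em_mul, em_tr]
  rfl

/-- The extension of the matrix of an operator. -/
lemma toMatrix_eb {B : Module.End W.K (W.H X)}
    {B' : Module.End (baseW W F).K ((baseW W F).H X)} (h : ∀ x, B' (em W F x) = em W F (B x)) :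
    LinearMap.toMatrix (eb F e) (eb F e) B' = (LinearMap.toMatrix e e B).map (exR W F) := by
  ext i j
  rw [LinearMap.toMatrix_apply, eb_apply, h, repr_em (eb_apply F e), Matrix.map_apply,
    LinearMap.toMatrix_apply]
  rfl

variable {F} (G G' : Matrix ι ι (baseW W F).K) (h : G * G' = 1) (h' : G' * G = 1)

/-- The basis given by an invertible matrix. -/
noncomputable def fb : Basis ι (baseW W F).K ((baseW W F).H X) :=
  (eb F e).map (Matrix.toLinOfInv (eb F e) (eb F e) h' h)

lemma fb_apply (j : ι) : fb e G G' h h' j = ∑ i, G' i j • eb F e i := by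
  change Matrix.toLin (eb F e) (eb F e) G' (eb F e j) = _
  rw [Matrix.toLin_self]

lemma fb_toMatrix : (fb e G G' h h').toMatrix (eb F e) = G := by
  ext i j
  rw [Basis.toMatrix_apply]
  change (eb F e).repr (Matrix.toLin (eb F e) (eb F e) G (eb F e j)) i = G i j
  rw [Matrix.toLin_self]
  simp only [map_sum, map_smul, Finsupp.coe_finsetSum, Finset.sum_apply, Finsupp.smul_apply,
    Basis.repr_self, smul_eq_mul]
  rw [Finset.sum_eq_single i]
  · rw [Finsupp.single_eq_same, mul_one]
  · intro w' _ hw
    rw [Finsupp.single_eq_of_ne (Ne.symm hw), mul_zero]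
  · intro h; exact absurd (Finset.mem_univ _) h

lemma toMatrix_fb : (eb F e).toMatrix (fb e G G' h h') = G' := by
  have h1 := Basis.toMatrix_mul_toMatrix_flip (fb e G G' h h') (eb F e)
  rw [fb_toMatrix] at h1
  calc (eb F e).toMatrix (fb e G G' h h') = G' * G * (eb F e).toMatrix (fb e G G' h h') := by
        rw [h', Matrix.one_mul]
    _ = G' := by rw [Matrix.mul_assoc, h1, Matrix.mul_one]

/-- The matrix of an operator in the new basis. -/
lemma toMatrix_fb_fb (B' : Module.End (baseW W F).K ((baseW W F).H X)) :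
    LinearMap.toMatrix (fb e G G' h h') (fb e G G' h h') B' =
      G * LinearMap.toMatrix (eb F e) (eb F e) B' * G' := by
  rw [← basis_toMatrix_mul_linearMap_toMatrix_mul_basis_toMatrix (fb e G G' h h') (eb F e)
    (fb e G G' h h') (eb F e), fb_toMatrix, toMatrix_fb]

lemma gram_fb (i j : ι) : (baseW W F).tr X (fb e G G' h h' i * fb e G G' h h' j) =
    (G'.transpose * (QW e).map (exR W F) * G') i j := by
  rw [fb_apply, fb_apply, Finset.sum_mul_sum, map_sum, Matrix.mul_apply]
  have h1 : ∀ l, (baseW W F).tr X (∑ m, G' l i • eb F e l * G' m j • eb F e m) =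
      ∑ m, G' l i * ex W F (QW e l m) * G' m j := by
    intro l
    rw [map_sum]
    refine Finset.sum_congr rfl fun m _ => ?_
    rw [smul_mul_smul_comm, map_smul, tr_eb, smul_eq_mul]
    ring
  rw [Finset.sum_congr rfl fun l _ => h1 l, Finset.sum_comm]
  refine Finset.sum_congr rfl fun m _ => ?_
  rw [Matrix.mul_apply, Finset.sum_mul]
  rfl

/-- **The lattice given by a matrix.** -/
theorem lattice_of {a : ι → ℕ} (he : ∀ j, e j ∈ W.gr X (a j)) {O : ValuationSubring (baseW W F).K}
    (hQ : (QW e).det ≠ 0)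
    (hG1 : ∀ i j, (G'.transpose * (QW e).map (exR W F) * G') i j ∈ O)
    (hG2 : ∀ i j, (G * ((QW e)⁻¹).map (exR W F) * G.transpose) i j ∈ O)
    (hG3 : ∀ d i j, (G * ((diagonal fun l => if a l = d then (1 : W.K) else 0).map (exR W F)) *
      G') i j ∈ O) {r : ℕ} (ν : ι ≃ Fin r) :
    GLat (baseW W F) X O (Submodule.span O (Set.range (fb e G G' h h'))) where
  basis := by
    refine ⟨r, (fb e G G' h h').reindex ν, ?_⟩
    rw [Basis.range_reindex]
  selfDual := by
    intro x
    refine selfDual_of (fb e G G' h h') rfl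
      (N := G * ((QW e)⁻¹).map (exR W F) * G.transpose) (fun i j => ?_) hG2 ?_ x
    · rw [gram_fb]; exact hG1 i j
    · have h1 : (Matrix.of fun i j => (baseW W F).tr X (fb e G G' h h' i * fb e G G' h h' j)) =
          G'.transpose * (QW e).map (exR W F) * G' := by
        ext i j
        exact gram_fb e G G' h h' i j
      have h2 : (QW e).map (exR W F) * ((QW e)⁻¹).map (exR W F) = 1 := by
        rw [← Matrix.map_mul, Matrix.mul_nonsing_inv _ (isUnit_iff_ne_zero.2 hQ)]
        exact Matrix.map_one _ (map_zero _) (map_one _)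
      rw [h1]
      calc G'.transpose * (QW e).map (exR W F) * G' *
            (G * ((QW e)⁻¹).map (exR W F) * G.transpose)
          = G'.transpose * ((QW e).map (exR W F) * (G' * G) * ((QW e)⁻¹).map (exR W F)) *
            G.transpose := by simp only [Matrix.mul_assoc]
        _ = 1 := by rw [h', Matrix.mul_one, h2, Matrix.mul_one, ← Matrix.transpose_mul, h,
            Matrix.transpose_one]
  graded := by
    intro x hx d
    refine op_stable (fb e G G' h h') rfl (fun i j => ?_) hx
    rw [toMatrix_fb_fb, toMatrix_proj (eb F e) (eb_gr F e he)]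
    have h1 : (diagonal fun l => if a l = d then (1 : W.K) else 0).map (exR W F) =
        diagonal fun l => if a l = d then (1 : (baseW W F).K) else 0 := by
      ext i j
      rw [Matrix.map_apply, Matrix.diagonal_apply, Matrix.diagonal_apply]
      split_ifs <;> simp
    rw [← h1]
    exact hG3 d i j

/-- The integrality of the classes of cycles for the lattice given by a matrix. -/
lemma cycles_of {O : ValuationSubring (baseW W F).K} {n : ℕ}
    (hn : ∀ j z, (pw X n).IsCyc j z → ∀ w : Fin (n + 1) → ι, ∑ J : Fin (n + 1) → ι,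
      (∏ l, G (w l) (J l)) * ex W F (tn e n (W.cl (pw X n) z) J) ∈ O) :
    CycInt (baseW W F) X O (Submodule.span O (Set.range (fb e G G' h h'))) n := by
  intro j z hz
  rw [int_iff (fb e G G' h h') rfl, em_cl]
  intro w
  rw [wb_change (fb e G G' h h') (eb F e), fb_toMatrix]
  simp only [wb_eb_repr]
  exact hn j z hz w

end Em

end Pool.Agent.Q200.VL
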