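import Pool.Agent.Q56.BR.Defs
import Pool.Agent.Y133.Half.Growth

/-!
# Self-dual lattices in the cohomology of a variety: definitions
-/

open CategoryTheory AlgebraicGeometry

universe u v

namespace Pool.Agent.Q200.VL

open Module

section Abs

variable {K : Type*} [Field K] {A : Type*} [Ring A] [Algebra K A] {B : Type*} [Ring B]

/-- `M` is a lattice over the valuation ring `O`: it consists of the elements whose coordinates in
a basis belong to `O`. -/
def IsLattice (O : ValuationSubring K) (M : Set A) : Prop :=
  ∃ (n : ℕ) (b : Basis (Fin n) K A), M = {x | ∀ i, b.repr x i ∈ O}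

/-- `M` is equal to its dual for the pairing `(x, y) ↦ t (x * y)`. -/
def IsSelfDual (O : ValuationSubring K) (t : A →ₗ[K] K) (M : Set A) : Prop :=
  ∀ x, x ∈ M ↔ ∀ y ∈ M, t (x * y) ∈ O

/-- `M` contains the homogeneous components of its elements. -/
def IsGradedSet (gr : ℕ → Submodule K A) (M : Set A) : Prop :=
  ∀ (N : ℕ) (y : ℕ → A), (∀ i, y i ∈ gr i) → ∑ i ∈ Finset.range N, y i ∈ M → ∀ i < N, y i ∈ M

/-- `c` is a sum and difference of products `p_0 (x_0) * p_1 (x_1) * ...` with `x_i ∈ M`. -/
def IsIntegralFor (M : Set A) {n : ℕ} (p : Fin n → (A → B)) (c : B) : Prop :=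
  c ∈ AddSubgroup.closure {y | ∃ x : Fin n → A, (∀ i, x i ∈ M) ∧
    y = (List.ofFn fun i => p i (x i)).prod}

/-- Every element of `M` of degree `j` is of the form `u * x` for an element `x` of `M` of
degree `i`. -/
def IsOntoFor (gr : ℕ → Submodule K A) (M : Set A) (u : A) (i j : ℕ) : Prop :=
  ∀ y ∈ M, y ∈ gr j → ∃ x ∈ M, x ∈ gr i ∧ u * x = y

variable {K' : Type*} [Field K'] {A' : Type*} [Ring A'] [Algebra K' A'] {B' : Type*} [Ring B']
  [Algebra K' B'] [Algebra K B] {C : Type*} [AddCommGroup C]

/-- `E : A → A'` is a homomorphism of rings which is semilinear over `s : K → K'`. -/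
structure IsSemilinearHom (s : K →+* K') (E : A → A') : Prop where
  add : ∀ a b, E (a + b) = E a + E b
  mul : ∀ a b, E (a * b) = E a * E b
  one : E 1 = 1
  smul : ∀ (r : K) (a : A), E (r • a) = s r • E a

/-- The space `p'` is spanned over `K'` by the image of `p`. -/
def IsSpannedBy (E : A → A') (p : Submodule K A) (p' : Submodule K' A') : Prop :=
  p' = Submodule.span K' (E '' p)

/-- The homomorphisms `f` and `f'` correspond to each other. -/
def MatchAlg (E : A → A') (E₂ : B → B') (f : A →ₐ[K] B) (f' : A' →ₐ[K'] B') : Prop :=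
  ∀ a, E₂ (f a) = f' (E a)

/-- The linear maps `f` and `f'` correspond to each other. -/
def MatchLin (E : A → A') (E₂ : B → B') (f : A →ₗ[K] B) (f' : A' →ₗ[K'] B') : Prop :=
  ∀ a, E₂ (f a) = f' (E a)

/-- The maps `c` and `c'` correspond to each other. -/
def MatchAdd (E : A → A') (c : C →+ A) (c' : C →+ A') : Prop := ∀ z, E (c z) = c' z

end Abs

open Pool.Agent.H914 Pool.Agent.H914.VarClass Pool.Agent.H914.VarClass.Obj
  Pool.Agent.H914.WeilCohomology
open Pool.Agent.Y133.Half (pw prj)

variable {k : Type u} [Field k] {𝒱 : VarClass k} {ops : CycleOps 𝒱}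

/-- `M` is a graded self-dual lattice in the cohomology of `X` over the valuation ring `O` of the
field of coefficients. -/
structure IsGradedLattice (W : WeilCohomology.{u, v} ops) (X : 𝒱.Obj) (O : ValuationSubring W.K)
    (M : Set (W.H X)) : Prop where
  lattice : IsLattice O M
  selfDual : IsSelfDual O (W.tr X) M
  graded : IsGradedSet (W.gr X) M

/-- The class of every cycle on `pw X n` (the product of `n + 1` copies of `X`) is integral: it is
a sum and difference of products of pull-backs of elements of `M` along the projections to the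
factors. -/
def CyclesIntegral (W : WeilCohomology.{u, v} ops) (X : 𝒱.Obj) (M : Set (W.H X)) (n : ℕ) : Prop :=
  ∀ j z, (pw X n).IsCyc j z → IsIntegralFor M (fun i => W.map (prj X n i)) (W.cl (pw X n) z)

/-- The hard Lefschetz theorem with integral coefficients in degree `i`: every element of the
lattice of degree `2 d - i` is of the form `ξ ^ (d - i) x` for an element `x` of degree `i` of the
lattice, where `d = dim X` and `ξ` is the class of `D`. -/
def IntegralLefschetz (W : WeilCohomology.{u, v} ops) (X : 𝒱.Obj) (D : X.Cycles)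
    (M : Set (W.H X)) (i : ℕ) : Prop :=
  IsOntoFor (W.gr X) M (W.cl X D ^ (X.dim - i)) i (2 * X.dim - i)

/-- The ring homomorphisms `E Y : H(Y) → H'(Y)` present the Weil cohomology theory `W'` as the
extension of the Weil cohomology theory `W` along the homomorphism `s` of the fields of
coefficients: they are semilinear, they are compatible with pull-backs, push-forwards and the
classes of cycles, and the space `H'^i(Y)` is spanned by the image of `H^i(Y)`. -/
structure IsCoeffExtension (W W' : WeilCohomology.{u, v} ops) (s : W.K →+* W'.K)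
    (E : ∀ Y : 𝒱.Obj, W.H Y → W'.H Y) : Prop where
  hom : ∀ Y, IsSemilinearHom s (E Y)
  gr : ∀ Y i, IsSpannedBy (E Y) (W.gr Y i) (W'.gr Y i)
  cl : ∀ Y, MatchAdd (E Y) (W.cl Y) (W'.cl Y)
  map : ∀ {Y Z : 𝒱.Obj} (f : Y ⟶ Z), MatchAlg (E Z) (E Y) (W.map f) (W'.map f)
  push : ∀ {Y Z : 𝒱.Obj} (f : Y ⟶ Z), MatchLin (E Y) (E Z) (W.push f) (W'.push f)

/-- **The lattice criterion in degree `i`.** Let `W'` be an extension of the Weil cohomology theory
`W` to a larger field of coefficients `F = W'.K`, let `O` be a valuation ring of `F` which contains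
`K = W.K`, and let `M` be a graded self-dual lattice over `O` in the cohomology of `X` with
coefficients in `F`. If the classes of all cycles on the powers `pw X n` with `n ∈ N` are integral,
then the hard Lefschetz theorem with integral coefficients holds in degree `i`. -/
def LatticeCriterion (W : WeilCohomology.{u, v} ops) (X : 𝒱.Obj) (D : X.Cycles) (N : Set ℕ)
    (i : ℕ) : Prop :=
  ∀ (W' : WeilCohomology.{u, v} ops) (s : W.K →+* W'.K) (E : ∀ Y : 𝒱.Obj, W.H Y → W'.H Y),
    IsCoeffExtension W W' s E → ∀ (O : ValuationSubring W'.K) (M : Set (W'.H X)),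
      (∀ c, s c ∈ O) → IsGradedLattice W' X O M → (∀ n ∈ N, CyclesIntegral W' X M n) →
        IntegralLefschetz W' X D M i

end Pool.Agent.Q200.VL
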