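import Pool.Agent.Q200.VL.Main1
import Pool.Agent.Q200.VL.Defs

/-!
# Two descriptions of lattices
-/

open CategoryTheory AlgebraicGeometry TensorProduct

set_option linter.unusedSectionVars false

universe u v

namespace Pool.Agent.Q200.VL

open Module Matrix
open Pool.Agent.H914 Pool.Agent.H914.VarClass Pool.Agent.H914.VarClass.Obj
  Pool.Agent.H914.WeilCohomology
open Pool.Agent.H447 Pool.Agent.Q56.BR Pool.Agent.H281R3.HT
open Pool.Agent.Y133.Half Pool.Agent.Y121.AH Pool.Agent.Q60.ED Pool.Agent.Q60.TD Pool.Agent.Q60.NP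

variable {k : Type u} [Field k] {𝒱 : VarClass k} {ops : CycleOps 𝒱}
  {W : WeilCohomology.{u, 0} ops} {X Y Z : 𝒱.Obj} {O : ValuationSubring W.K}

lemma graded_iff {M : Submodule O (W.H X)} :
    IsGradedSet (W.gr X) (M : Set (W.H X)) ↔ ∀ x ∈ M, ∀ i, proj (W.isInternal X) i x ∈ M := by
  constructor
  · intro h x hx i
    by_cases hi : i < 2 * X.dim + 1
    · refine h (2 * X.dim + 1) (fun i => proj (W.isInternal X) i x)
        (fun i => H914.proj_mem _ i x) ?_ i hi
      rw [← proj_sum x]
      exact hx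
    · have h1 : proj (W.isInternal X) i x ∈ W.gr X i := H914.proj_mem _ i x
      rw [W_hbd i (by omega), Submodule.mem_bot] at h1
      rw [h1]
      exact Submodule.zero_mem _
  · intro h N y hy hs i hi
    have h1 := h _ hs i
    rw [map_sum, Finset.sum_eq_single i] at h1
    · rw [proj_same _ (hy i)] at h1
      exact h1
    · intro j _ hj
      exact proj_ne _ (hy j) hj
    · intro h2
      exact absurd (Finset.mem_range.2 hi) h2

/-- The lattices as submodules. -/
lemma exists_glat {M : Set (W.H X)} (h : IsGradedLattice W X O M) :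
    ∃ M' : Submodule O (W.H X), (M' : Set (W.H X)) = M ∧ GLat W X O M' := by
  obtain ⟨n, b, hb⟩ := h.lattice
  set M' : Submodule O (W.H X) := Submodule.span O (Set.range b) with hM'
  have h1 : (M' : Set (W.H X)) = M := by
    rw [hb]
    ext x
    exact mem_span_iff b hM' x
  refine ⟨M', h1, ⟨n, b, hM'⟩, fun x => ?_, ?_⟩
  · have h2 := h.selfDual x
    rw [← h1] at h2
    exact h2
  · rw [← graded_iff, h1]
    exact h.graded

lemma glat_set {M : Submodule O (W.H X)} (h : GLat W X O M) :
    IsGradedLattice W X O (M : Set (W.H X)) := by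
  refine ⟨?_, fun x => h.selfDual x, graded_iff.2 h.graded⟩
  obtain ⟨n, b, hb⟩ := h.basis
  refine ⟨n, b, ?_⟩
  ext x
  exact mem_span_iff b hb x

lemma intCls_iff {M : Submodule O (W.H X)} {n : ℕ} {c : W.H (pw X n)} :
    IsIntegralFor (M : Set (W.H X)) (fun i => W.map (prj X n i)) c ↔ IntCls W X O M n c := by
  set S : Set (W.H (pw X n)) := {y | ∃ x : Fin (n + 1) → W.H X, (∀ i, x i ∈ M) ∧
    y = (List.ofFn fun i => W.map (prj X n i) (x i)).prod} with hS
  have hr : ∀ (r : O), ∀ c ∈ AddSubgroup.closure S, r • c ∈ AddSubgroup.closure S := by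
    intro r c hc
    induction hc using AddSubgroup.closure_induction with
    | mem y hy =>
      obtain ⟨x, hx, rfl⟩ := hy
      refine AddSubgroup.subset_closure ⟨Function.update x 0 (r • x 0), fun i => ?_, ?_⟩
      · by_cases hi : i = 0
        · subst hi
          rw [Function.update_self]
          exact M.smul_mem r (hx 0)
        · rw [Function.update_of_ne hi]
          exact hx i
      · have h1 := (mm W X n).map_update_smul x 0 (r : W.K) (x 0)
        rw [Function.update_eq_self, mm_apply, mm_apply] at h1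
        exact h1.symm
    | zero => rw [smul_zero]; exact AddSubgroup.zero_mem _
    | add x y _ _ hx hy => rw [smul_add]; exact AddSubgroup.add_mem _ hx hy
    | neg x _ hx => rw [smul_neg]; exact AddSubgroup.neg_mem _ hx
  constructor
  · intro h
    have h1 : AddSubgroup.closure S ≤ (Submodule.span O S).toAddSubgroup := by
      rw [AddSubgroup.closure_le]
      exact Submodule.subset_span
    exact h1 h
  · intro h
    change c ∈ AddSubgroup.closure S
    rw [IntCls] at h
    induction h using Submodule.span_induction with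
    | mem y hy => exact AddSubgroup.subset_closure hy
    | zero => exact AddSubgroup.zero_mem _
    | add x y _ _ hx hy => exact AddSubgroup.add_mem _ hx hy
    | smul r x _ hx => exact hr r x hx

lemma cycInt_iff {M : Submodule O (W.H X)} {n : ℕ} :
    CyclesIntegral W X (M : Set (W.H X)) n ↔ CycInt W X O M n :=
  forall₃_congr fun _ _ _ => intCls_iff

lemma base_gr_span (W : WeilCohomology.{u, 0} ops) (F : Type) [Field F] [Algebra W.K F]
    (Y : 𝒱.Obj) (i : ℕ) : (W.gr Y i).baseChange F =
      Submodule.span F ((fun a => (1 : F) ⊗ₜ[W.K] a) '' (W.gr Y i : Set (W.H Y))) := by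
  rw [Submodule.baseChange_eq_span, Submodule.map_coe]
  rfl

/-- The extension of the coefficients. -/
lemma isCoeffExtension_base (W : WeilCohomology.{u, 0} ops) (F : Type) [Field F]
    [Algebra W.K F] : IsCoeffExtension W (baseW W F) (exR W F) (fun _ => em W F) where
  hom _ := ⟨em_add, em_mul, rfl, em_smul⟩
  gr Y i := base_gr_span W F Y i
  cl _ _ := rfl
  map f b := (em_map f b).symm
  push f a := (em_push f a).symm

/-- The criterion for all extensions implies the criterion for the extensions `baseW W F`. -/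
theorem latCrit_of {D : X.Cycles} {N : Set ℕ} {i : ℕ} (h : LatticeCriterion W X D N i) :
    LatCrit W X D N i := by
  intro F iF iA O M h1 h2 h3
  exact h (baseW W F) (exR W F) (fun _ => em W F) (isCoeffExtension_base W F) O
    (M : Set ((baseW W F).H X)) h1 (glat_set h2) fun n hn => cycInt_iff.2 (h3 n hn)

section Ext

variable {W' : WeilCohomology.{u, 0} ops} {s : W.K →+* W'.K}
  {E : ∀ Y : 𝒱.Obj, W.H Y → W'.H Y}

lemma ext_pow_mul (h : IsCoeffExtension W W' s E) (D : X.Cycles) (c : ℕ) (a : W.H X) :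
    E X (W.cl X D ^ c * a) = W'.cl X D ^ c * E X a := by
  have h1 : E X (W.cl X D ^ c) = W'.cl X D ^ c := by
    induction c with
    | zero => rw [pow_zero, pow_zero]; exact (h.hom X).one
    | succ c ih =>
      rw [pow_succ, pow_succ, (h.hom X).mul, ih]
      congr 1
      exact h.cl X D
  rw [(h.hom X).mul, h1]

lemma ext_gr (h : IsCoeffExtension W W' s E) (Y : 𝒱.Obj) (i : ℕ) :
    W'.gr Y i = Submodule.span W'.K (E Y '' W.gr Y i) := h.gr Y i

lemma ext_corr (h : IsCoeffExtension W W' s E) (z : (X.prod Y).Cycles) (a : W.H X) :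
    W'.corr (W'.cl (X.prod Y) z) (E X a) = E Y (W.corr (W.cl (X.prod Y) z) a) := by
  have h1 : ∀ b, E (X.prod Y) (W.map (fst X Y) b) = W'.map (fst X Y) (E X b) := h.map (fst X Y)
  have h2 : ∀ b, E Y (W.push (snd X Y) b) = W'.push (snd X Y) (E (X.prod Y) b) :=
    h.push (snd X Y)
  have h3 : E (X.prod Y) (W.cl (X.prod Y) z) = W'.cl (X.prod Y) z := h.cl (X.prod Y) z
  rw [corr_apply, corr_apply, h2, (h.hom _).mul, h1, h3]

/-- The hard Lefschetz theorem after extension of the coefficients: surjectivity. -/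
lemma ext_surj (h : IsCoeffExtension W W' s E) {D : X.Cycles} (hHL : HardLefschetz W X D) {i : ℕ}
    (hi : i ≤ X.dim) {y : W'.H X} (hy : y ∈ W'.gr X (2 * X.dim - i)) :
    ∃ x ∈ W'.gr X i, W'.cl X D ^ (X.dim - i) * x = y := by
  rw [ext_gr h] at hy
  induction hy using Submodule.span_induction with
  | mem y hy =>
    obtain ⟨b, hb, rfl⟩ := hy
    obtain ⟨a, ha, hab⟩ := (hHL i hi).2 b hb
    rw [H914.mulLeft_pow_apply] at hab
    refine ⟨E X a, ?_, ?_⟩
    · rw [ext_gr h]
      exact Submodule.subset_span ⟨a, ha, rfl⟩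
    · rw [← ext_pow_mul h, hab]
  | zero => exact ⟨0, Submodule.zero_mem _, mul_zero _⟩
  | add x y _ _ hx hy =>
    obtain ⟨a, ha, rfl⟩ := hx
    obtain ⟨b, hb, rfl⟩ := hy
    exact ⟨a + b, Submodule.add_mem _ ha hb, mul_add _ _ _⟩
  | smul r x _ hx =>
    obtain ⟨a, ha, rfl⟩ := hx
    exact ⟨r • a, Submodule.smul_mem _ _ ha, mul_smul_comm _ _ _⟩

/-- If the inverse is algebraic, then the criterion holds. -/
theorem criterion_of_inv {D : X.Cycles} (hHL : HardLefschetz W X D) {i : ℕ} (hi : i ≤ X.dim)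
    (h : InverseAlgebraic W X D i) {N : Set ℕ} (hN : 1 ∈ N) : LatticeCriterion W X D N i := by
  intro W' s E hE O M _ hlat hcyc y hy hyg
  obtain ⟨M', rfl, hM'⟩ := exists_glat hlat
  obtain ⟨z, hz, hzi⟩ := h
  obtain ⟨x, hx, hxy⟩ := ext_surj hE hHL hi hyg
  refine ⟨x, ?_, hx, hxy⟩
  have h1 : cor1 W' X (W'.cl (X.prod X) z) y ∈ M' :=
    corr_stable (fun x hx y hy => (hM'.selfDual x).1 hx y hy) hM'.graded
      (cycInt_iff.1 (hcyc 1 hN) i z hz) hy
  have h2 : W'.corr (W'.cl (X.prod X) z) (W'.cl X D ^ (X.dim - i) * x) = x := by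
    clear hxy
    rw [ext_gr hE] at hx
    induction hx using Submodule.span_induction with
    | mem x hx =>
      obtain ⟨a, ha, rfl⟩ := hx
      rw [← ext_pow_mul hE, ext_corr hE, hzi a ha]
    | zero => rw [mul_zero, map_zero]
    | add x y _ _ hx hy => rw [mul_add, map_add, hx, hy]
    | smul r x _ hx => rw [mul_smul_comm, map_smul, hx]
  rw [hxy] at h2
  change x ∈ M'
  rw [← h2]
  exact h1

end Ext

/-- **The Lefschetz standard conjecture and self-dual lattices.** -/
theorem main2 {D : X.Cycles} (hD : X.IsCyc 1 D) (hHL : HardLefschetz W X D) {N : Set ℕ}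
    (hN : 1 ∈ N) :
    (LefschetzB W X D ↔ KunnethStd W X ∧ ∀ i ≤ X.dim, LatticeCriterion W X D N i) ∧
    (KunnethStd W X → ∀ i ≤ X.dim,
      (InverseAlgebraic W X D i ↔ LatticeCriterion W X D N i)) := by
  obtain ⟨h1, h2⟩ := main1 hD hHL
  have h3 : KunnethStd W X → ∀ i ≤ X.dim,
      (InverseAlgebraic W X D i ↔ LatticeCriterion W X D N i) := fun hK i hi =>
    ⟨fun h => criterion_of_inv hHL hi h hN, fun h => (h1 hK i hi N hN).2 (latCrit_of h)⟩
  refine ⟨?_, h3⟩
  rw [h2 N hN]
  constructor
  · rintro ⟨hK, h⟩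
    exact ⟨hK, fun i hi => (h3 hK i hi).1 ((h1 hK i hi N hN).2 (h i hi))⟩
  · rintro ⟨hK, h⟩
    exact ⟨hK, fun i hi => latCrit_of (h i hi)⟩

end Pool.Agent.Q200.VL
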