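import Mathlib

/-!
# Minors of products
-/

set_option linter.unusedSectionVars false

namespace Pool.Agent.Q200.VL

open Matrix

variable {R : Type*} [CommRing R] {ι : Type*} [Fintype ι] [DecidableEq ι]

lemma det_mul_fun {r : ℕ} (M : Matrix (Fin r) ι R) (N : Matrix ι (Fin r) R) :
    (M * N).det = ∑ C : Fin r → ι, (M.submatrix id C).det * ∏ l, N (C l) l := by
  have h1 : (M * N).det = detRowAlternating (fun l => ∑ j, N j l • M.transpose j) := by
    rw [← Matrix.det_transpose]
    change detRowAlternating _ = _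
    congr 1
    funext l
    funext k
    rw [Matrix.transpose_apply, Matrix.mul_apply, Finset.sum_apply]
    refine Finset.sum_congr rfl fun j _ => ?_
    rw [Pi.smul_apply, smul_eq_mul, Matrix.transpose_apply, mul_comm]
  rw [h1]
  have h2 := (detRowAlternating (R := R) (n := Fin r)).toMultilinearMap.map_sum
    (fun l (j : ι) => N j l • M.transpose j)
  refine h2.trans ?_
  refine Finset.sum_congr rfl fun C _ => ?_
  have h3 := (detRowAlternating (R := R) (n := Fin r)).toMultilinearMap.map_smul_univ
    (fun l => N (C l) l) (fun l => M.transpose (C l))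
  refine h3.trans ?_
  rw [smul_eq_mul, mul_comm, ← Matrix.det_transpose (M.submatrix id C)]
  rfl

lemma det_mul_fun' {r : ℕ} (M : Matrix (Fin r) ι R) (N : Matrix ι (Fin r) R) :
    (M * N).det = ∑ C : Fin r → ι, (∏ l, M l (C l)) * (N.submatrix C id).det := by
  rw [← Matrix.det_transpose, Matrix.transpose_mul, det_mul_fun]
  refine Finset.sum_congr rfl fun C _ => ?_
  rw [mul_comm, ← Matrix.det_transpose (N.submatrix C id)]
  rfl

/-- The sum of the products of the maximal minors. -/
lemma sum_minors {r : ℕ} (U : Matrix ι (Fin r) R) (V : Matrix (Fin r) ι R) :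
    ∑ A : Fin r → ι, (U.submatrix A id).det * (V.submatrix id A).det =
      (Fintype.card (Equiv.Perm (Fin r)) : R) * (V * U).det := by
  have h1 : ∀ A : Fin r → ι, (U.submatrix A id).det * (V.submatrix id A).det =
      ∑ σ : Equiv.Perm (Fin r), (∏ l, V (σ l) (A l)) *
        ((Equiv.Perm.sign σ : ℤ) • (U.submatrix A id).det) := by
    intro A
    rw [Matrix.det_apply (V.submatrix id A), Finset.mul_sum]
    refine Finset.sum_congr rfl fun σ _ => ?_
    simp only [Matrix.submatrix_apply, id_eq, Units.smul_def, zsmul_eq_mul]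
    ring
  simp only [h1]
  rw [Finset.sum_comm]
  have h2 : ∀ σ : Equiv.Perm (Fin r), ∑ A : Fin r → ι, (∏ l, V (σ l) (A l)) *
      ((Equiv.Perm.sign σ : ℤ) • (U.submatrix A id).det) = (V * U).det := by
    intro σ
    rw [det_mul_fun', ← (Equiv.arrowCongr σ.symm (Equiv.refl ι)).sum_comp]
    refine Finset.sum_congr rfl fun A _ => ?_
    have e1 : (Equiv.arrowCongr σ.symm (Equiv.refl ι)) A = A ∘ σ := rfl
    rw [e1]
    have e2 : ∏ l, V (σ l) ((A ∘ σ) l) = ∏ l, V l (A l) := Equiv.prod_comp σ fun l => V l (A l)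
    have e3 : (U.submatrix (A ∘ σ) id).det = (Equiv.Perm.sign σ : ℤ) * (U.submatrix A id).det := by
      have h3 := Matrix.det_permute σ (U.submatrix A id)
      rw [Matrix.submatrix_submatrix] at h3
      exact h3
    rw [e2, e3, zsmul_eq_mul, ← mul_assoc (((Equiv.Perm.sign σ : ℤ) : R))]
    have e4 : (((Equiv.Perm.sign σ : ℤ) : R)) * ((Equiv.Perm.sign σ : ℤ) : R) = 1 := by
      rw [← Int.cast_mul, Int.units_coe_mul_self, Int.cast_one]
    rw [e4, one_mul]
  rw [Finset.sum_congr rfl fun σ _ => h2 σ, Finset.sum_const, Finset.card_univ, nsmul_eq_mul]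

end Pool.Agent.Q200.VL
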