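import Pool.Agent.Q200.VL.Alg
import Pool.Agent.Q200.VL.Mat

/-!
# Operators of a closed system and valuation rings
-/

set_option linter.unusedSectionVars false

namespace Pool.Agent.Q200.VL

open MvPolynomial Module Matrix Pool.Agent.Q60.ED Pool.Agent.Q60.NP

variable {K : Type} [Field K] {ι : Type} [Fintype ι] [DecidableEq ι] {Q : Matrix ι ι K}
  {C : CSys Q}

/-- The tensor of an operator. -/
noncomputable def opT (Q : Matrix ι ι K) (A : Matrix ι ι K) : (Fin 2 → ι) → K :=
  fun w => (A * Q⁻¹) (w 0) (w 1)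

/-- The conjugate of an operator by the generic matrix. -/
noncomputable def cj (A : Matrix ι ι K) : Matrix ι ι (FR K ι) :=
  XF K ι * A.map (algebraMap K (FR K ι)) * (XF K ι)⁻¹

lemma XF_unit : IsUnit (XF K ι).det := isUnit_iff_ne_zero.2 (XF_det_ne K ι)

lemma cj_mul (A B : Matrix ι ι K) : cj (A * B) = cj A * cj B := by
  rw [cj, cj, cj, Matrix.map_mul]
  calc XF K ι * (A.map (algebraMap K (FR K ι)) * B.map (algebraMap K (FR K ι))) * (XF K ι)⁻¹
      = XF K ι * A.map (algebraMap K (FR K ι)) * 1 * B.map (algebraMap K (FR K ι)) *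
        (XF K ι)⁻¹ := by simp only [Matrix.mul_assoc, Matrix.mul_one]
    _ = _ := by
      rw [← Matrix.nonsing_inv_mul _ (XF_unit (K := K) (ι := ι))]
      simp only [Matrix.mul_assoc]

/-- The matrix of the inverse form in the generic basis. -/
noncomputable def OmX (Q : Matrix ι ι K) : Matrix ι ι (FR K ι) :=
  XF K ι * (Q⁻¹).map (algebraMap K (FR K ι)) * (XF K ι).transpose

/-- The matrix of the form in the generic basis. -/
noncomputable def QX (Q : Matrix ι ι K) : Matrix ι ι (FR K ι) :=
  ((XF K ι)⁻¹).transpose * Q.map (algebraMap K (FR K ι)) * (XF K ι)⁻¹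

lemma coords_two (A : Matrix ι ι K) (i j : ι) :
    algebraMap (MvPolynomial (ι × ι) K) (FR K ι)
      (xt (fun w : Fin 2 → ι => A (w 0) (w 1)) ![i, j]) =
      (XF K ι * A.map (algebraMap K (FR K ι)) * (XF K ι).transpose) i j := by
  rw [xt_FR]
  have h5 := tpow_two (XF K ι) (fun J => algebraMap K (FR K ι) (A (J 0) (J 1)))
  exact congrFun (congrFun h5 i) j

lemma OmX_mem (i j : ι) : OmX Q i j ∈ B1 C := by
  have h1 := B0_le (xt_mem_B0 C.om ![i, j])
  rw [coords_two] at h1
  exact h1

lemma QX_OmX (hQ : Q.det ≠ 0) : QX Q * OmX Q = 1 := by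
  have hgu := XF_unit (K := K) (ι := ι)
  have hQu := isUnit_iff_ne_zero.2 hQ
  have h1 : Q.map (algebraMap K (FR K ι)) * (Q⁻¹).map (algebraMap K (FR K ι)) = 1 := by
    have h2 := (Matrix.map_mul (L := Q) (M := Q⁻¹) (f := algebraMap K (FR K ι))).symm
    rw [Matrix.mul_nonsing_inv _ hQu] at h2
    rw [h2]
    exact Matrix.map_one _ (map_zero _) (map_one _)
  calc QX Q * OmX Q = ((XF K ι)⁻¹).transpose * (Q.map (algebraMap K (FR K ι)) *
        ((XF K ι)⁻¹ * XF K ι * (Q⁻¹).map (algebraMap K (FR K ι)))) * (XF K ι).transpose := by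
        simp only [QX, OmX, Matrix.mul_assoc]
    _ = _ := by
      rw [Matrix.nonsing_inv_mul _ hgu, Matrix.one_mul, h1, Matrix.mul_one,
        ← Matrix.transpose_mul, Matrix.mul_nonsing_inv _ hgu, Matrix.transpose_one]

lemma OmX_QX (hQ : Q.det ≠ 0) : OmX Q * QX Q = 1 := mul_eq_one_comm.1 (QX_OmX hQ)

lemma QX_mem (hQ : Q.det ≠ 0) (i j : ι) : QX Q i j ∈ B1 C := by
  have h5 : QX Q = (OmX Q)⁻¹ := (Matrix.inv_eq_left_inv (QX_OmX hQ)).symm
  have h3 : (OmX Q).det = (XF K ι).det ^ 2 * algebraMap K (FR K ι) (Q⁻¹).det := by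
    rw [OmX, det_mul, det_mul, det_transpose]
    have h4 : ((Q⁻¹).map (algebraMap K (FR K ι))).det = algebraMap K (FR K ι) (Q⁻¹).det := by
      rw [RingHom.map_det]; rfl
    rw [h4]
    ring
  have h6 : ((OmX Q).adjugate) i j ∈ B1 C := by
    set ΩA := liftM (B1 C) (OmX Q) OmX_mem with hΩA
    have h7 : (OmX Q).adjugate = (ΩA.adjugate).map ((B1 C).val : B1 C →+* FR K ι) := by
      conv_lhs => rw [← liftM_map (B1 C) (OmX Q) OmX_mem]
      exact (((B1 C).val : B1 C →+* FR K ι).map_adjugate ΩA).symm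
    rw [h7]
    exact (ΩA.adjugate i j).2
  rw [h5, Matrix.inv_def, h3, Ring.inverse_eq_inv', mul_inv, ← inv_pow, Matrix.smul_apply,
    smul_eq_mul, ← map_inv₀]
  exact Subalgebra.mul_mem _ (Subalgebra.mul_mem _ dinv_mem_B1
    (Subalgebra.algebraMap_mem _ _)) h6

lemma cj_eq (hQ : Q.det ≠ 0) (A : Matrix ι ι K) : cj A =
    XF K ι * (A * Q⁻¹).map (algebraMap K (FR K ι)) * (XF K ι).transpose * QX Q := by
  have hgu := XF_unit (K := K) (ι := ι)
  have hQu := isUnit_iff_ne_zero.2 hQ
  have h1 : (A * Q⁻¹).map (algebraMap K (FR K ι)) * Q.map (algebraMap K (FR K ι)) =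
      A.map (algebraMap K (FR K ι)) := by
    rw [← Matrix.map_mul, Matrix.mul_assoc, Matrix.nonsing_inv_mul _ hQu, Matrix.mul_one]
  have h2 : (XF K ι).transpose * ((XF K ι)⁻¹).transpose = 1 := by
    rw [← Matrix.transpose_mul, Matrix.nonsing_inv_mul _ hgu, Matrix.transpose_one]
  calc cj A = XF K ι * ((A * Q⁻¹).map (algebraMap K (FR K ι)) *
        Q.map (algebraMap K (FR K ι))) * (XF K ι)⁻¹ := by rw [h1, cj]
    _ = XF K ι * (A * Q⁻¹).map (algebraMap K (FR K ι)) *
        ((XF K ι).transpose * ((XF K ι)⁻¹).transpose) * Q.map (algebraMap K (FR K ι)) *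
        (XF K ι)⁻¹ := by rw [h2, Matrix.mul_one]; simp only [Matrix.mul_assoc]
    _ = _ := by simp only [QX, Matrix.mul_assoc]

lemma mul_mem_mat {α β γ : Type} [Fintype β] {A : Subalgebra K (FR K ι)}
    {M : Matrix α β (FR K ι)} {N : Matrix β γ (FR K ι)} (hM : ∀ i j, M i j ∈ A)
    (hN : ∀ i j, N i j ∈ A) (i : α) (j : γ) : (M * N) i j ∈ A := by
  rw [Matrix.mul_apply]
  exact Subalgebra.sum_mem _ fun l _ => Subalgebra.mul_mem _ (hM _ _) (hN _ _)

/-- The operators of the system have coordinates in the algebra. -/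
lemma cj_mem (hQ : Q.det ≠ 0) {A : Matrix ι ι K} (hA : opT Q A ∈ C.S 2) (i j : ι) :
    cj A i j ∈ B1 C := by
  rw [cj_eq hQ]
  refine mul_mem_mat (fun i j => ?_) (fun i j => QX_mem hQ i j) i j
  have h1 := B0_le (xt_mem_B0 hA ![i, j])
  have h2 : opT Q A = fun w : Fin 2 → ι => (A * Q⁻¹) (w 0) (w 1) := rfl
  rw [h2, coords_two] at h1
  exact h1

/-- Operators with coordinates in the algebra belong to the system. -/
lemma mem_of_cj [CharZero K] (hQ : Q.det ≠ 0) {A : Matrix ι ι K} (h : ∀ i j, cj A i j ∈ B1 C) :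
    opT Q A ∈ C.S 2 := by
  refine mem_of_B1 hQ fun I => ?_
  have h1 : I = ![I 0, I 1] := by
    funext k
    fin_cases k <;> rfl
  have h3 : opT Q A = fun w : Fin 2 → ι => (A * Q⁻¹) (w 0) (w 1) := rfl
  rw [h1, h3, coords_two]
  have h2 : XF K ι * (A * Q⁻¹).map (algebraMap K (FR K ι)) * (XF K ι).transpose =
      cj A * OmX Q := by
    rw [cj_eq hQ, Matrix.mul_assoc _ (QX Q), QX_OmX hQ, Matrix.mul_one]
  rw [h2]
  exact mul_mem_mat h (fun i j => OmX_mem i j) _ _

section Val

variable {F : Type} [Field F] (O : ValuationSubring F)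

lemma nu_sum {α : Type} {s : Finset α} {f : α → F} (h : ∀ a ∈ s, f a ∈ O.nonunits) :
    ∑ a ∈ s, f a ∈ O.nonunits := by
  classical
  induction s using Finset.induction_on with
  | empty =>
    rw [Finset.sum_empty, ValuationSubring.mem_nonunits_iff, map_zero]
    exact zero_lt_one
  | insert a s ha ih =>
    rw [Finset.sum_insert ha]
    have h1 := h a (Finset.mem_insert_self a s)
    have h2 := ih fun b hb => h b (Finset.mem_insert_of_mem hb)
    rw [ValuationSubring.mem_nonunits_iff] at h1 h2 ⊢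
    exact lt_of_le_of_lt (O.valuation.map_add _ _) (max_lt h1 h2)

lemma nu_mul {x y : F} (hx : x ∈ O.nonunits) (hy : y ∈ O) : x * y ∈ O.nonunits := by
  rw [ValuationSubring.mem_nonunits_iff] at hx ⊢
  rw [map_mul]
  have h1 := (O.valuation_le_one_iff y).2 hy
  calc O.valuation x * O.valuation y ≤ O.valuation x * 1 := by gcongr
    _ < 1 := by rwa [mul_one]

lemma not_nu {x y : F} (hx : x ∈ O) (hxy : x * y = 1) : y ∉ O.nonunits := by
  intro hy
  have h1 := nu_mul O hy hx
  rw [mul_comm, hxy, ValuationSubring.mem_nonunits_iff, map_one] at h1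
  exact lt_irrefl _ h1

end Val

/-- **The criterion for the inverse of an operator.** Let `ℓ = U' S V` be an operator of the system
which maps the image of the projector `U V` isomorphically to the image of the projector `U' V'`,
where the projectors also belong to the system. If the inverse `θ = U S⁻¹ V'` is integral for all
valuation rings for which the system is integral, then `θ` belongs to the system. -/
theorem crit [CharZero K] (hQ : Q.det ≠ 0) {r : ℕ} {U U' : Matrix ι (Fin r) K}
    {V V' : Matrix (Fin r) ι K} {S : Matrix (Fin r) (Fin r) K} (hV : V' * U' = 1)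
    (hVU : V * U = 1) (hS : S.det ≠ 0) (hP : opT Q (U * V) ∈ C.S 2) (hP' : opT Q (U' * V') ∈ C.S 2)
    (hL : opT Q (U' * S * V) ∈ C.S 2)
    (h : ∀ O : ValuationSubring (FR K ι), (∀ b ∈ B1 C, b ∈ O) →
      ∀ i j, cj (U * S⁻¹ * V') i j ∈ O) : opT Q (U * S⁻¹ * V') ∈ C.S 2 := by
  classical
  set φ := algebraMap K (FR K ι) with hφ
  have hgu := XF_unit (K := K) (ι := ι)
  have hSu := isUnit_iff_ne_zero.2 hS
  set u := XF K ι * U.map φ with hu
  set v := V.map φ * (XF K ι)⁻¹ with hv
  set u' := XF K ι * U'.map φ with hu'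
  set v' := V'.map φ * (XF K ι)⁻¹ with hv'
  set s := S.map φ with hs
  have hcP : cj (U * V) = u * v := by
    rw [cj, Matrix.map_mul, hu, hv]
    simp only [Matrix.mul_assoc, hφ]
  have hcP' : cj (U' * V') = u' * v' := by
    rw [cj, Matrix.map_mul, hu', hv']
    simp only [Matrix.mul_assoc, hφ]
  have hcL : cj (U' * S * V) = u' * s * v := by
    rw [cj, Matrix.map_mul, Matrix.map_mul, hu', hs, hv]
    simp only [Matrix.mul_assoc, hφ]
  have hcT : cj (U * S⁻¹ * V') = u * (S⁻¹).map φ * v' := by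
    rw [cj, Matrix.map_mul, Matrix.map_mul, hu, hv']
    simp only [Matrix.mul_assoc, hφ]
  have hss : (S⁻¹).map φ * s = 1 := by
    rw [hs, ← Matrix.map_mul, Matrix.nonsing_inv_mul _ hSu]
    exact Matrix.map_one _ (map_zero _) (map_one _)
  have hss' : s * (S⁻¹).map φ = 1 := mul_eq_one_comm.1 hss
  have hsi : s⁻¹ = (S⁻¹).map φ := Matrix.inv_eq_left_inv hss
  have hvu : v' * u' = 1 := by
    calc v' * u' = V'.map φ * ((XF K ι)⁻¹ * XF K ι) * U'.map φ := by
          simp only [hv', hu', Matrix.mul_assoc]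
      _ = 1 := by
        rw [Matrix.nonsing_inv_mul _ hgu, Matrix.mul_one, ← Matrix.map_mul, hV]
        exact Matrix.map_one _ (map_zero _) (map_one _)
  -- the ideal of the minors
  have hmin : ∀ A B : Fin r → ι, ((cj (U' * S * V)).submatrix A B).det ∈ B1 C := by
    intro A B
    set ℓA := liftM (B1 C) (cj (U' * S * V)) (cj_mem hQ hL) with hℓA
    have h7 : ((cj (U' * S * V)).submatrix A B).det =
        ((B1 C).val : B1 C →+* FR K ι) ((ℓA.submatrix A B).det) := by
      rw [RingHom.map_det]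
      congr 1
    rw [h7]
    exact ((ℓA.submatrix A B).det).2
  let x : (Fin r → ι) × (Fin r → ι) → B1 C := fun p =>
    ⟨((cj (U' * S * V)).submatrix p.1 p.2).det, hmin p.1 p.2⟩
  by_cases hI : Ideal.span (Set.range x) = ⊤
  · -- the ideal is the unit ideal
    refine mem_of_cj hQ fun i j => ?_
    have h1 : (1 : B1 C) ∈ Ideal.span (Set.range x) := by rw [hI]; trivial
    rw [Ideal.mem_span_range_iff_exists_fun] at h1
    obtain ⟨a, ha⟩ := h1
    have e4 : ∑ p, (a p : FR K ι) * ((cj (U' * S * V)).submatrix p.1 p.2).det = 1 := by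
      have e5 := congrArg (fun x : B1 C => (x : FR K ι)) ha
      simp only [AddSubmonoidClass.coe_finsetSum, MulMemClass.coe_mul, OneMemClass.coe_one] at e5
      exact e5
    have e5 : cj (U * S⁻¹ * V') i j = ∑ p, (a p : FR K ι) *
        (((cj (U' * S * V)).submatrix p.1 p.2).det * cj (U * S⁻¹ * V') i j) := by
      simp only [← mul_assoc]
      rw [← Finset.sum_mul, e4, one_mul]
    rw [e5]
    refine Subalgebra.sum_mem _ fun p _ => Subalgebra.mul_mem _ (a p).2 ?_
    obtain ⟨A, B⟩ := p
    by_cases hd : ((cj (U' * S * V)).submatrix A B).det = 0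
    · simp only
      rw [hd, zero_mul]
      exact Subalgebra.zero_mem _
    · -- Cramer's rule
      set ℓ := (cj (U' * S * V)).submatrix A B with hℓ
      have e6 : ℓ = u'.submatrix A id * s * v.submatrix id B := by
        rw [hℓ, hcL]
        rfl
      have e7 : (u'.submatrix A id).det ≠ 0 ∧ (v.submatrix id B).det ≠ 0 := by
        rw [e6, det_mul, det_mul] at hd
        exact ⟨fun h0 => hd (by rw [h0]; ring), fun h0 => hd (by rw [h0]; ring)⟩
      have e8 : (cj (U * V)).submatrix id B * ℓ⁻¹ * (cj (U' * V')).submatrix A id =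
          cj (U * S⁻¹ * V') := by
        have e9 : (cj (U * V)).submatrix id B = u * v.submatrix id B := by
          rw [hcP]; rfl
        have e10 : (cj (U' * V')).submatrix A id = u'.submatrix A id * v' := by
          rw [hcP']; rfl
        rw [e9, e10, e6, Matrix.mul_inv_rev, Matrix.mul_inv_rev, hcT, hsi]
        calc u * v.submatrix id B * ((v.submatrix id B)⁻¹ * ((S⁻¹).map φ *
              (u'.submatrix A id)⁻¹)) * (u'.submatrix A id * v')
            = u * (v.submatrix id B * (v.submatrix id B)⁻¹) * (S⁻¹).map φ *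
              ((u'.submatrix A id)⁻¹ * u'.submatrix A id) * v' := by
              simp only [Matrix.mul_assoc]
          _ = _ := by
            rw [Matrix.mul_nonsing_inv _ (isUnit_iff_ne_zero.2 e7.2),
              Matrix.nonsing_inv_mul _ (isUnit_iff_ne_zero.2 e7.1), Matrix.mul_one,
              Matrix.mul_one]
      have e11 : ℓ.det * cj (U * S⁻¹ * V') i j =
          ((cj (U * V)).submatrix id B * ℓ.adjugate * (cj (U' * V')).submatrix A id) i j := by
        rw [← e8, Matrix.inv_def, Ring.inverse_eq_inv', Matrix.mul_smul, Matrix.smul_mul,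
          Matrix.smul_apply, smul_eq_mul, ← mul_assoc, mul_inv_cancel₀ hd, one_mul]
      rw [e11]
      refine mul_mem_mat (mul_mem_mat (fun i j => cj_mem hQ hP i _) fun i j => ?_)
        (fun i j => cj_mem hQ hP' _ j) i j
      set ℓA := liftM (B1 C) (cj (U' * S * V)) (cj_mem hQ hL) with hℓA
      have h7 : ℓ.adjugate =
          ((ℓA.submatrix A B).adjugate).map ((B1 C).val : B1 C →+* FR K ι) := by
        rw [hℓ]
        exact (((B1 C).val : B1 C →+* FR K ι).map_adjugate (ℓA.submatrix A B)).symm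
      rw [h7]
      exact ((ℓA.submatrix A B).adjugate i j).2
  · -- a valuation ring which dominates a point where the minors vanish
    exfalso
    obtain ⟨O, h1, h2⟩ := exists_val (Ideal.span (Set.range x)) hI
    have h3 : ∀ A B : Fin r → ι, ((cj (U' * S * V)).submatrix A B).det ∈ O.nonunits :=
      fun A B => h2 (x (A, B)) (Ideal.subset_span ⟨(A, B), rfl⟩)
    have h4 := h O h1
    have h5 : cj (U' * V') = cj (U' * S * V) * cj (U * S⁻¹ * V') := by
      rw [← cj_mul]
      congr 1
      calc U' * V' = U' * (S * ((V * U) * S⁻¹)) * V' := by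
            rw [hVU, Matrix.one_mul, Matrix.mul_nonsing_inv _ hSu, Matrix.mul_one]
        _ = _ := by simp only [Matrix.mul_assoc]
    have h6 : ∀ A : Fin r → ι, (u'.submatrix A id).det * (v'.submatrix id A).det ∈
        O.nonunits := by
      intro A
      have e1 : (u'.submatrix A id).det * (v'.submatrix id A).det =
          ((cj (U' * V')).submatrix A A).det := by
        rw [← det_mul, hcP']
        rfl
      have e2 : (cj (U' * V')).submatrix A A =
          (cj (U' * S * V)).submatrix A id * (cj (U * S⁻¹ * V')).submatrix id A := by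
        rw [h5]
        rfl
      rw [e1, e2, det_mul_fun]
      refine nu_sum O fun B _ => nu_mul O ?_ ?_
      · exact h3 A B
      · exact prod_mem fun l _ => h4 _ _
    have h7 := sum_minors u' v'
    rw [hvu, det_one, mul_one] at h7
    have h8 := nu_sum O (s := Finset.univ) fun A _ => h6 A
    rw [h7] at h8
    refine not_nu O (x := φ ((Fintype.card (Equiv.Perm (Fin r)) : K)⁻¹)) ?_ ?_ h8
    · exact h1 _ (Subalgebra.algebraMap_mem _ _)
    · rw [← map_natCast φ, ← map_mul, inv_mul_cancel₀ (Nat.cast_ne_zero.2 Fintype.card_ne_zero),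
        map_one]

end Pool.Agent.Q200.VL
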