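import Pool.Agent.Q56.BR.Defs
import Pool.Agent.Y121.AH.Abs
import Pool.Agent.Y133.Half.Growth

/-!
# Self-dual lattices in the cohomology of a variety: auxiliary definitions
-/

open CategoryTheory AlgebraicGeometry

universe u v

namespace Pool.Agent.Q200.VL

open Module
open Pool.Agent.H914 Pool.Agent.H914.VarClass Pool.Agent.H914.VarClass.Obj
  Pool.Agent.H914.WeilCohomology
open Pool.Agent.Y121.AH (ex)
open Pool.Agent.Y133.Half (pw prj)

variable {k : Type u} [Field k] {𝒱 : VarClass k} {ops : CycleOps 𝒱}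

/-- `M` is a graded self-dual lattice in the cohomology of `X` over the valuation ring `O` of the
field of coefficients. -/
structure GLat (W : WeilCohomology.{u, v} ops) (X : 𝒱.Obj) (O : ValuationSubring W.K)
    (M : Submodule O (W.H X)) : Prop where
  basis : ∃ (n : ℕ) (b : Basis (Fin n) W.K (W.H X)), M = Submodule.span O (Set.range b)
  selfDual : ∀ x, x ∈ M ↔ ∀ y ∈ M, W.tr X (x * y) ∈ O
  graded : ∀ x ∈ M, ∀ i, proj (W.isInternal X) i x ∈ M

/-- The class `c` on `pw X n` is integral. -/
def IntCls (W : WeilCohomology.{u, v} ops) (X : 𝒱.Obj) (O : ValuationSubring W.K)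
    (M : Submodule O (W.H X)) (n : ℕ) (c : W.H (pw X n)) : Prop :=
  c ∈ Submodule.span O {y | ∃ x : Fin (n + 1) → W.H X, (∀ i, x i ∈ M) ∧
    y = (List.ofFn fun i => W.map (prj X n i) (x i)).prod}

/-- The classes of all cycles on `pw X n` are integral. -/
def CycInt (W : WeilCohomology.{u, v} ops) (X : 𝒱.Obj) (O : ValuationSubring W.K)
    (M : Submodule O (W.H X)) (n : ℕ) : Prop :=
  ∀ j z, (pw X n).IsCyc j z → IntCls W X O M n (W.cl (pw X n) z)

/-- The hard Lefschetz theorem with integral coefficients in degree `i`. -/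
def IntLef (W : WeilCohomology.{u, v} ops) (X : 𝒱.Obj) (D : X.Cycles)
    (O : ValuationSubring W.K) (M : Submodule O (W.H X)) (i : ℕ) : Prop :=
  ∀ y ∈ M, y ∈ W.gr X (2 * X.dim - i) →
    ∃ x ∈ M, x ∈ W.gr X i ∧ W.cl X D ^ (X.dim - i) * x = y

/-- The valuation ring `O` of the extension `F` of the field of coefficients contains the field of
coefficients. -/
def ContainsCoeff (W : WeilCohomology.{u, 0} ops) (F : Type) [Field F] [Algebra W.K F]
    (O : ValuationSubring (baseW W F).K) : Prop := ∀ c : W.K, ex W F c ∈ O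

/-- The lattice criterion in degree `i`. -/
def LatCrit (W : WeilCohomology.{u, 0} ops) (X : 𝒱.Obj) (D : X.Cycles) (N : Set ℕ)
    (i : ℕ) : Prop :=
  ∀ (F : Type) [Field F] [Algebra W.K F] (O : ValuationSubring (baseW W F).K)
    (M : Submodule O ((baseW W F).H X)), ContainsCoeff W F O →
    GLat (baseW W F) X O M → (∀ n ∈ N, CycInt (baseW W F) X O M n) →
    IntLef (baseW W F) X D O M i

end Pool.Agent.Q200.VL
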