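import Pool.Agent.Q200.VL.Defs
import Pool.Agent.Y133.Half.Par
import Pool.Agent.H447R3.SpDefs
import Pool.Agent.H914R2.DDefs

/-!
# Degeneration of algebraic classes: definitions
-/

open CategoryTheory AlgebraicGeometry

universe u v

namespace Pool.Agent.Q200.VL

open Module

section Abs

variable {K : Type*} [Field K] {A : Type*} [Ring A] [Algebra K A] {B : Type*} [Ring B]
  [Algebra K B]

/-- `M` contains the components of its elements in the subspaces `P` and `Q`. -/
def IsSplitSet (P Q : Submodule K A) (M : Set A) : Prop :=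
  ∀ x ∈ P, ∀ y ∈ Q, x + y ∈ M → x ∈ M ∧ y ∈ M

/-- `c` is congruent to zero modulo the maximal ideal of `O`: it is a sum of elements
`r • (p_0 (x_0) * p_1 (x_1) * ...)` with `x_i ∈ M` and `r` in the maximal ideal of `O`. -/
def IsZeroMod (O : ValuationSubring K) (M : Set A) {n : ℕ} (p : Fin n → (A → B)) (c : B) : Prop :=
  c ∈ AddSubgroup.closure {y | ∃ r ∈ O.nonunits, ∃ x : Fin n → A, (∀ i, x i ∈ M) ∧
    y = r • (List.ofFn fun i => p i (x i)).prod}

end Abs

open Pool.Agent.H914 Pool.Agent.H914.VarClass Pool.Agent.H914.VarClass.Obj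
  Pool.Agent.H914.WeilCohomology
open Pool.Agent.Y133.Half (pw prj PH)

variable {k : Type u} [Field k] {𝒱 : VarClass k} {ops : CycleOps 𝒱}

/-- `M` is a self-dual lattice in the cohomology of `X` over the valuation ring `O` of the field of
coefficients, which is the sum of its even and its odd part; and the classes of all cycles on all
powers of `X` are integral. -/
structure IsAdmissible (W : WeilCohomology.{u, v} ops) (X : 𝒱.Obj) (O : ValuationSubring W.K)
    (M : Set (W.H X)) : Prop where
  lattice : IsLattice O M
  selfDual : IsSelfDual O (W.tr X) M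
  split : IsSplitSet (PH W X 0) (PH W X 1) M
  cycles : ∀ n, CyclesIntegral W X M n

/-- The class of the cycle `z` on `pw X n` **degenerates to zero**: after some extension of the
field of coefficients `K = W.K` to a field `F`, there are a valuation ring `O` of `F` which contains
`K` and an admissible lattice `M` over `O` such that the class of `z` is congruent to zero modulo
the maximal ideal of `O`. -/
def DegeneratesToZero (W : WeilCohomology.{u, v} ops) (X : 𝒱.Obj) (n : ℕ)
    (z : (pw X n).Cycles) : Prop :=
  ∃ (W' : WeilCohomology.{u, v} ops) (s : W.K →+* W'.K) (E : ∀ Y : 𝒱.Obj, W.H Y → W'.H Y)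
    (O : ValuationSubring W'.K) (M : Set (W'.H X)), IsCoeffExtension W W' s E ∧ (∀ c, s c ∈ O) ∧
      IsAdmissible W' X O M ∧ IsZeroMod O M (fun i => W'.map (prj X n i)) (W'.cl (pw X n) z)

/-- The cycle `z` of codimension `j` on `Z` is numerically equivalent to zero. -/
def IsNumTrivial (ops : CycleOps 𝒱) (Z : 𝒱.Obj) (j : ℕ) (z : Z.Cycles) : Prop :=
  ∀ w, Z.IsCyc (Z.dim - j) w → Z.V.degCycle (ops.mul z w) = 0

end Pool.Agent.Q200.VL
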