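import Pool.Agent.Q200.VL.Lef
import Pool.Agent.Q200.VL.Defs0

/-!
# Lattices in the cohomology of a variety
-/

open CategoryTheory AlgebraicGeometry TensorProduct

set_option linter.unusedSectionVars false

universe u v

namespace Pool.Agent.Q200.VL

open Module Matrix
open Pool.Agent.H914 Pool.Agent.H914.VarClass Pool.Agent.H914.VarClass.Obj
  Pool.Agent.H914.WeilCohomology
open Pool.Agent.H447 Pool.Agent.Q56.BR Pool.Agent.H281R3.HT
open Pool.Agent.Y133.Half Pool.Agent.Y121.AH Pool.Agent.Q60.ED Pool.Agent.Q60.TD Pool.Agent.Q60.NP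
open Pool.Agent.Q60.HD (wd wd_zero wd_succ wd_map wd_prj wd_append wd_PH wb_PH sum_append' par_op
  two_inv par_prod par_pw sg sg_mem sg_xp wb_xp)

variable {k : Type u} [Field k] {𝒱 : VarClass k} {ops : CycleOps 𝒱}
  {W : WeilCohomology.{u, 0} ops} {X Y Z : 𝒱.Obj} {ι : Type} [Fintype ι] [DecidableEq ι]

/-- The product of the pull-backs of classes to a power. -/
noncomputable def mm (W : WeilCohomology.{u, 0} ops) (X : 𝒱.Obj) (n : ℕ) :
    MultilinearMap W.K (fun _ : Fin (n + 1) => W.H X) (W.H (pw X n)) :=
  (MultilinearMap.mkPiAlgebraFin W.K (n + 1) (W.H (pw X n))).compLinearMap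
    fun i => (W.map (prj X n i)).toLinearMap

lemma mm_apply (n : ℕ) (x : Fin (n + 1) → W.H X) :
    mm W X n x = (List.ofFn fun i => W.map (prj X n i) (x i)).prod := by
  rw [mm, MultilinearMap.compLinearMap_apply, MultilinearMap.mkPiAlgebraFin_apply]
  rfl

lemma mm_basis (f : Basis ι W.K (W.H X)) (n : ℕ) (w : Fin (n + 1) → ι) :
    mm W X n (fun i => f (w i)) = wb f n w := by
  rw [mm_apply, wb_eq]

lemma mm_sum (f : Basis ι W.K (W.H X)) (n : ℕ) (g : Fin (n + 1) → ι → W.K) :
    mm W X n (fun i => ∑ l, g i l • f l) = ∑ w : Fin (n + 1) → ι, (∏ i, g i (w i)) • wb f n w := by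
  rw [MultilinearMap.map_sum]
  refine Finset.sum_congr rfl fun w _ => ?_
  rw [MultilinearMap.map_smul_univ, mm_basis]

section Lat

variable {O : ValuationSubring W.K} {M : Submodule O (W.H X)} (f : Basis ι W.K (W.H X))

lemma mem_span_iff (hM : M = Submodule.span O (Set.range f)) (x : W.H X) :
    x ∈ M ↔ ∀ l, f.repr x l ∈ O := by
  rw [hM, Basis.mem_span_iff_repr_mem O f]
  refine forall_congr' fun l => ?_
  constructor
  · rintro ⟨c, hc⟩
    rw [← hc]
    exact c.2
  · intro h
    exact ⟨⟨_, h⟩, rfl⟩

lemma basis_mem (hM : M = Submodule.span O (Set.range f)) (l : ι) : f l ∈ M := by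
  rw [hM]
  exact Submodule.subset_span ⟨l, rfl⟩

/-- The coordinates of integral classes. -/
lemma int_iff (hM : M = Submodule.span O (Set.range f)) (n : ℕ) (c : W.H (pw X n)) :
    IntCls W X O M n c ↔ ∀ w, (wb f n).repr c w ∈ O := by
  constructor
  · intro h w
    rw [IntCls] at h
    induction h using Submodule.span_induction with
    | mem y hy =>
      obtain ⟨x, hx, rfl⟩ := hy
      have h1 : (List.ofFn fun i => W.map (prj X n i) (x i)).prod =
          ∑ w : Fin (n + 1) → ι, (∏ i, f.repr (x i) (w i)) • wb f n w := by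
        rw [← mm_apply, ← mm_sum]
        congr 1
        funext i
        exact (f.sum_repr (x i)).symm
      rw [h1]
      simp only [map_sum, map_smul, Finsupp.coe_finsetSum, Finset.sum_apply, Finsupp.smul_apply,
        Basis.repr_self, smul_eq_mul]
      refine sum_mem fun w' _ => mul_mem ?_ ?_
      · exact prod_mem fun i _ => (mem_span_iff f hM _).1 (hx i) _
      · by_cases hw : w' = w
        · subst hw
          rw [Finsupp.single_eq_same]
          exact one_mem _
        · rw [Finsupp.single_eq_of_ne (Ne.symm hw)]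
          exact zero_mem _
    | zero => rw [map_zero, Finsupp.zero_apply]; exact zero_mem _
    | add x y _ _ hx hy => rw [map_add, Finsupp.add_apply]; exact add_mem hx hy
    | smul c x _ hx =>
      have h1 : c • x = (c : W.K) • x := rfl
      rw [h1, map_smul, Finsupp.smul_apply, smul_eq_mul]
      exact mul_mem c.2 hx
  · intro h
    rw [IntCls, ← (wb f n).sum_repr c]
    refine Submodule.sum_mem _ fun w _ => ?_
    have h1 : (wb f n).repr c w • wb f n w = (⟨(wb f n).repr c w, h w⟩ : O) • wb f n w := rfl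
    rw [h1]
    refine Submodule.smul_mem _ _ (Submodule.subset_span ⟨fun i => f (w i), fun i =>
      basis_mem f hM _, ?_⟩)
    rw [wb_eq]

/-- The span of a basis with an invertible matrix of the form is self-dual. -/
lemma selfDual_of (hM : M = Submodule.span O (Set.range f)) {N : Matrix ι ι W.K}
    (h1 : ∀ i j, W.tr X (f i * f j) ∈ O) (h2 : ∀ i j, N i j ∈ O)
    (h3 : (Matrix.of fun i j => W.tr X (f i * f j)) * N = 1) (x : W.H X) :
    x ∈ M ↔ ∀ y ∈ M, W.tr X (x * y) ∈ O := by
  have h4 : ∀ (x : W.H X) (m : ι), W.tr X (x * f m) = ∑ l, f.repr x l * W.tr X (f l * f m) := by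
    intro x m
    conv_lhs => rw [← f.sum_repr x, Finset.sum_mul, map_sum]
    exact Finset.sum_congr rfl fun l _ => by rw [smul_mul_assoc, map_smul, smul_eq_mul]
  constructor
  · intro hx y hy
    have h5 : W.tr X (x * y) = ∑ m, f.repr y m * W.tr X (x * f m) := by
      conv_lhs => rw [← f.sum_repr y, Finset.mul_sum, map_sum]
      exact Finset.sum_congr rfl fun l _ => by rw [mul_smul_comm, map_smul, smul_eq_mul]
    rw [h5]
    refine sum_mem fun m _ => mul_mem ((mem_span_iff f hM _).1 hy m) ?_
    rw [h4]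
    exact sum_mem fun l _ => mul_mem ((mem_span_iff f hM _).1 hx l) (h1 l m)
  · intro h
    rw [mem_span_iff f hM]
    intro l
    have h5 : f.repr x l = ∑ m, W.tr X (x * f m) * N m l := by
      have h6 : ∑ m, W.tr X (x * f m) * N m l =
          ∑ l', f.repr x l' * ∑ m, W.tr X (f l' * f m) * N m l := by
        have h7 : ∀ m, W.tr X (x * f m) * N m l =
            ∑ l', f.repr x l' * (W.tr X (f l' * f m) * N m l) := by
          intro m
          rw [h4 x m, Finset.sum_mul]
          exact Finset.sum_congr rfl fun l' _ => by ring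
        rw [Finset.sum_congr rfl fun m _ => h7 m, Finset.sum_comm]
        exact Finset.sum_congr rfl fun l' _ => by rw [Finset.mul_sum]
      rw [h6]
      have h7 : ∀ l', ∑ m, W.tr X (f l' * f m) * N m l = (1 : Matrix ι ι W.K) l' l := by
        intro l'
        rw [← h3, Matrix.mul_apply]
        rfl
      simp only [h7, Matrix.one_apply, mul_ite, mul_one, mul_zero]
      rw [Finset.sum_ite_eq' Finset.univ l]
      simp
    rw [h5]
    exact sum_mem fun m _ => mul_mem (h _ (basis_mem f hM m)) (h2 m l)

/-- Operators with integral matrices preserve the lattice. -/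
lemma op_stable (hM : M = Submodule.span O (Set.range f)) {B : Module.End W.K (W.H X)}
    (hB : ∀ i j, LinearMap.toMatrix f f B i j ∈ O) {x : W.H X} (hx : x ∈ M) : B x ∈ M := by
  rw [mem_span_iff f hM]
  intro l
  have h1 := LinearMap.toMatrix_mulVec_repr f f B x
  rw [← congrFun h1 l, Matrix.mulVec, dotProduct]
  exact sum_mem fun m _ => mul_mem (hB l m) ((mem_span_iff f hM _).1 hx m)

/-- A graded lattice is the sum of its homogeneous parts. -/
lemma proj_sum (x : W.H X) :
    x = ∑ i ∈ Finset.range (2 * X.dim + 1), proj (W.isInternal X) i x := by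
  have h1 := sum_proj (W.isInternal X) (N := 2 * X.dim + 1) W_hbd
  have h2 := congrArg (fun F => F x) h1
  rw [LinearMap.sum_apply, Module.End.one_apply] at h2
  exact h2.symm

/-- Integral classes on the square act on the lattice. -/
lemma corr_stable (hd : ∀ x ∈ M, ∀ y ∈ M, W.tr X (x * y) ∈ O)
    (hg : ∀ x ∈ M, ∀ i, proj (W.isInternal X) i x ∈ M) {c : W.H (pw X 1)}
    (hc : IntCls W X O M 1 c) {y : W.H X} (hy : y ∈ M) : cor1 W X c y ∈ M := by
  rw [IntCls] at hc
  induction hc using Submodule.span_induction with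
  | mem c hc =>
    obtain ⟨x, hx, rfl⟩ := hc
    have h1 : (List.ofFn fun i => W.map (prj X 1 i) (x i)).prod =
        (xp W (x 0) (x 1) : W.H (X.prod X)) := by
      rw [List.ofFn_succ', List.prod_concat, List.ofFn_succ, List.ofFn_zero, List.prod_singleton]
      have e1 : prj X 1 (Fin.last _) = snd X X := rfl
      have e2 : prj X 1 (Fin.castSucc (0 : Fin 1)) = fst X X := Category.comp_id (fst X X)
      rw [e2]
      rfl
    have h2 : corrL W X X (xp W (x 0) (x 1)) y ∈ M := by
      rw [proj_sum y, map_sum]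
      refine Submodule.sum_mem _ fun j _ => ?_
      have h3 : (xp W (x 0) (x 1) : W.H (X.prod X)) = ∑ i ∈ Finset.range (2 * X.dim + 1),
          xp W (x 0) (proj (W.isInternal X) i (x 1)) := by
        rw [xp, proj_sum (x 1), map_sum, Finset.mul_sum]
        rw [← proj_sum (x 1)]
        rfl
      rw [h3, map_sum, LinearMap.sum_apply]
      refine Submodule.sum_mem _ fun i _ => ?_
      have h4 : corrL W X X (xp W (x 0) (proj (W.isInternal X) i (x 1)))
          (proj (W.isInternal X) j y) = ((-1 : W.K) ^ (i * j) *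
            W.tr X (x 0 * proj (W.isInternal X) j y)) • proj (W.isInternal X) i (x 1) :=
        corr_xp (W := W) (X := X) (Y := X) (x 0) (PH.of (H914.proj_mem _ i _))
          (PH.of (H914.proj_mem _ j _))
      rw [h4]
      have h5 : (-1 : W.K) ^ (i * j) * W.tr X (x 0 * proj (W.isInternal X) j y) ∈ O :=
        mul_mem (pow_mem (neg_mem (one_mem _)) _) (hd _ (hx 0) _ (hg _ hy j))
      exact M.smul_mem (⟨_, h5⟩ : O) (hg _ (hx 1) i)
    exact h1 ▸ h2
  | zero =>
    rw [map_zero, LinearMap.zero_apply]
    exact Submodule.zero_mem _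
  | add x z _ _ hx hz =>
    rw [map_add, LinearMap.add_apply]
    exact Submodule.add_mem _ hx hz
  | smul r x _ hx =>
    have h0 : r • x = (r : W.K) • x := rfl
    rw [h0, map_smul, LinearMap.smul_apply]
    exact M.smul_mem r hx

end Lat

end Pool.Agent.Q200.VL
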