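import Pool.Agent.Q200.VL.Ops
import Pool.Agent.Q56.BR.Main

/-!
# The inverse of the Lefschetz isomorphism and valuation rings
-/

open CategoryTheory AlgebraicGeometry TensorProduct

set_option linter.unusedSectionVars false

universe u v

namespace Pool.Agent.Q200.VL

open Module Matrix
open Pool.Agent.H914 Pool.Agent.H914.VarClass Pool.Agent.H914.VarClass.Obj
  Pool.Agent.H914.WeilCohomology
open Pool.Agent.H447 Pool.Agent.Q56.BR Pool.Agent.H281R3.HT
open Pool.Agent.Y133.Half Pool.Agent.Y121.AH Pool.Agent.Q60.ED Pool.Agent.Q60.TD Pool.Agent.Q60.NP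
open Pool.Agent.Q60.HD (wd wd_zero wd_succ wd_map wd_prj wd_append wd_PH wb_PH sum_append' par_op
  two_inv par_prod par_pw sg sg_mem sg_xp wb_xp)

variable {k : Type u} [Field k] {𝒱 : VarClass k} {ops : CycleOps 𝒱}

section Gen

variable {W : WeilCohomology.{u, v} ops} {X Y Z : 𝒱.Obj}

lemma op_of_rop {d : ℤ} {y : Module.End W.K (W.H X)} (hy : ROp W X d y) :
    y ∈ (algSys W).Op X X := by
  obtain ⟨Y, ⟨q, hq, z, hz, hY⟩ | ⟨-, hY⟩, rfl⟩ := hy
  · rw [hY]
    exact Sys.Op.corr (Submodule.subset_span (Set.mem_iUnion.2 ⟨q, z, hz, rfl⟩))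
  · rw [hY]
    exact Submodule.zero_mem _

lemma opA_of_op {y : Module.End W.K (W.H X)} (hy : y ∈ (algSys W).Op X X) :
    y ∈ opA (ROp W X) := by
  obtain ⟨γ, hγ, rfl⟩ := Sys.mem_Op.1 hy
  clear hy
  change γ ∈ algSpan W _ at hγ
  induction hγ using Submodule.span_induction with
  | mem x hx =>
    obtain ⟨p, z, hz, rfl⟩ := Set.mem_iUnion.1 hx
    exact mem_opA_of (d := (p : ℤ) - X.dim) (rop_corr (p := p) (by ring) hz)
  | zero => rw [corr_zero]; exact Subalgebra.zero_mem _
  | add x y _ _ hx hy => rw [corr_add]; exact Subalgebra.add_mem _ hx hy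
  | smul c x _ hx => rw [corr_smul]; exact Subalgebra.smul_mem _ hx _

/-- The inverse of the Lefschetz isomorphism is algebraic if it is given by a combination of
algebraic classes with arbitrary coefficients. -/
theorem inv_of_op {D : X.Cycles} (hD : X.IsCyc 1 D) (hK : KunnethStd W X) {i : ℕ}
    (hi : i ≤ X.dim) {θ : Module.End W.K (W.H X)} (hθ : θ ∈ (algSys W).Op X X)
    (h : ∀ x ∈ W.gr X i, θ (W.cl X D ^ (X.dim - i) * x) = x) : InverseAlgebraic W X D i := by
  set hI := W.isInternal X with hh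
  set j := 2 * X.dim - i with hj
  have hOA := rop_opAlg (W := W) (X := X)
  have hP : ∀ i, ROp W X 0 (proj hI i) := rop_proj hK
  have hL : ROp W X 1 (LinearMap.mulLeft W.K (W.cl X D)) := rop_mulLeft hD
  have hLh : IsHom (W.gr X) 2 (LinearMap.mulLeft W.K (W.cl X D)) := by
    simpa using hOA.hom hL
  have hLm : ∀ a ∈ W.gr X i, (LinearMap.mulLeft W.K (W.cl X D) ^ (X.dim - i)) a ∈ W.gr X j := by
    intro a ha
    have := pow_L_mem hLh ha (X.dim - i)
    rwa [show i + 2 * (X.dim - i) = j by omega] at this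
  have h1 := block_mem hOA hI (opA_of_op hθ) (i := i) (j := j) (d := -((X.dim - i : ℕ) : ℤ))
    (by omega)
  have h2 : proj hI i * θ * proj hI j ∈ KS (ROp W X) (-((X.dim - i : ℕ) : ℤ)) := by
    refine Submodule.span_mono ?_ h1
    rintro _ ⟨u, hu, rfl⟩
    exact hOA.cast (hOA.mul (hOA.mul (hP i) hu) (hP j)) (by ring)
  obtain ⟨θ', hθR, hθ''⟩ := descent_one hOA hI rop_str hL hP h2 fun a ha => by
    rw [Module.End.mul_apply, Module.End.mul_apply, proj_same hI (hLm a ha), H914.mulLeft_pow_apply,
      h a ha, proj_same hI ha]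
  obtain ⟨z, hz, rfl⟩ := exists_of_rop (p := i) (by omega) hθR
  refine ⟨z, hz, fun a ha => ?_⟩
  have := hθ'' a ha
  rwa [H914.mulLeft_pow_apply] at this

end Gen

section Sub

variable {K : Type} [Field K] {ι : Type} [Fintype ι] [DecidableEq ι] {r : ℕ}

/-- The inclusion of some of the coordinates. -/
def Um (K : Type) [Field K] (f : Fin r → ι) : Matrix ι (Fin r) K :=
  (1 : Matrix ι ι K).submatrix id f

/-- The projection to some of the coordinates. -/
def Vm (K : Type) [Field K] (f : Fin r → ι) : Matrix (Fin r) ι K :=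
  (1 : Matrix ι ι K).submatrix f id

lemma Vm_mul_Um {f : Fin r → ι} (hf : Function.Injective f) : Vm K f * Um K f = 1 := by
  rw [Vm, Um, ← Matrix.submatrix_mul _ _ _ _ _ Function.bijective_id, Matrix.mul_one,
    Matrix.submatrix_one _ hf]

lemma Vm_mul (M : Matrix ι ι K) (f g : Fin r → ι) : Vm K f * M * Um K g = M.submatrix f g := by
  have h1 : Vm K f * M = M.submatrix f id := by
    have h2 := Matrix.submatrix_mul (1 : Matrix ι ι K) M f id id Function.bijective_id
    rw [Matrix.one_mul, Matrix.submatrix_id_id] at h2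
    exact h2.symm
  rw [h1]
  have h2 := Matrix.submatrix_mul M (1 : Matrix ι ι K) f id g Function.bijective_id
  rw [Matrix.mul_one] at h2
  exact h2.symm

lemma Um_mul_Vm {a : ι → ℕ} {i : ℕ} (ν : Fin r ≃ {k // a k = i}) :
    Um K (fun l => (ν l : ι)) * Vm K (fun l => (ν l : ι)) =
      diagonal fun k => if a k = i then 1 else 0 := by
  ext k m
  rw [Matrix.mul_apply, Matrix.diagonal_apply]
  simp only [Um, Vm, Matrix.submatrix_apply, id_eq, Matrix.one_apply]
  by_cases hk : a k = i
  · rw [Finset.sum_eq_single (ν.symm ⟨k, hk⟩)]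
    · rw [Equiv.apply_symm_apply]
      simp [hk]
    · intro l _ hl
      rw [if_neg, zero_mul]
      intro h
      apply hl
      rw [Equiv.eq_symm_apply]
      exact Subtype.ext h.symm
    · intro h; exact absurd (Finset.mem_univ _) h
  · rw [Finset.sum_eq_zero, if_neg hk, ite_self]
    intro l _
    rw [if_neg, zero_mul]
    intro h
    apply hk
    rw [h]
    exact (ν l).2

end Sub

variable {W : WeilCohomology.{u, 0} ops} {X Y Z : 𝒱.Obj} {ι : Type} [Fintype ι] [DecidableEq ι]
  (e : Basis ι W.K (W.H X)) {a : ι → ℕ}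

lemma repr_gr (he : ∀ j, e j ∈ W.gr X (a j)) {i : ℕ} {x : W.H X} (hx : x ∈ W.gr X i) {j : ι}
    (hj : a j ≠ i) : e.repr x j = 0 := by
  have h1 : x = ∑ l, (if a l = i then e.repr x l else 0) • e l := by
    conv_lhs => rw [← proj_same (W.isInternal X) hx, ← e.sum_repr x, map_sum]
    refine Finset.sum_congr rfl fun l _ => ?_
    rw [map_smul]
    split_ifs with h
    · subst h
      rw [proj_same _ (he l)]
    · rw [proj_ne _ (he l) h, smul_zero, zero_smul]
  have h2 := congrArg (fun y => e.repr y j) h1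
  simp only [map_sum, map_smul, Finsupp.coe_finsetSum, Finset.sum_apply, Finsupp.smul_apply,
    Basis.repr_self, smul_eq_mul] at h2
  rw [h2, Finset.sum_eq_zero]
  intro l _
  by_cases hl : l = j
  · subst hl
    rw [if_neg hj, zero_mul]
  · rw [Finsupp.single_eq_of_ne (Ne.symm hl), mul_zero]

lemma finrank_gr_eq (he : ∀ j, e j ∈ W.gr X (a j)) (i : ℕ) :
    finrank W.K (W.gr X i) = Fintype.card {k // a k = i} := by
  have h1 : W.gr X i = Submodule.span W.K (Set.range fun l : {k // a k = i} => e l) := by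
    apply le_antisymm
    · intro x hx
      rw [← e.sum_repr x]
      refine Submodule.sum_mem _ fun l _ => ?_
      by_cases hl : a l = i
      · exact Submodule.smul_mem _ _ (Submodule.subset_span ⟨⟨l, hl⟩, rfl⟩)
      · rw [repr_gr e he hx hl, zero_smul]
        exact Submodule.zero_mem _
    · rw [Submodule.span_le]
      rintro _ ⟨l, rfl⟩
      have h2 := he l
      rw [l.2] at h2
      exact h2
  rw [h1]
  exact finrank_span_eq_card (e.linearIndependent.comp _ Subtype.val_injective)

lemma toMatrix_proj (he : ∀ j, e j ∈ W.gr X (a j)) (i : ℕ) :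
    LinearMap.toMatrix e e (proj (W.isInternal X) i) =
      diagonal fun k => if a k = i then 1 else 0 := by
  ext k m
  rw [LinearMap.toMatrix_apply, Matrix.diagonal_apply]
  by_cases hm : a m = i
  · subst hm
    rw [proj_same _ (he m), Basis.repr_self]
    by_cases hk : k = m
    · subst hk
      simp
    · rw [Finsupp.single_eq_of_ne hk, if_neg hk]
  · rw [proj_ne _ (he m) hm, map_zero, Finsupp.zero_apply]
    by_cases hk : k = m
    · subst hk
      simp [hm]
    · rw [if_neg hk]

/-- The matrix of the power of the Lefschetz operator. -/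
noncomputable def Lm (ξ : W.H X) (c : ℕ) : Matrix ι ι W.K :=
  LinearMap.toMatrix e e (LinearMap.mulLeft W.K (ξ ^ c))

lemma betti_eq {D : X.Cycles} (hD : X.IsCyc 1 D) (hHL : HardLefschetz W X D) {i : ℕ}
    (hi : i ≤ X.dim) : finrank W.K (W.gr X i) = finrank W.K (W.gr X (2 * X.dim - i)) := by
  have hOA := rop_opAlg (W := W) (X := X)
  have hLh : IsHom (W.gr X) 2 (LinearMap.mulLeft W.K (W.cl X D)) := by
    simpa using hOA.hom (rop_mulLeft (W := W) hD)
  have hLm : ∀ a ∈ W.gr X i, (LinearMap.mulLeft W.K (W.cl X D) ^ (X.dim - i)) a ∈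
      W.gr X (2 * X.dim - i) := by
    intro a ha
    have := pow_L_mem hLh ha (X.dim - i)
    rwa [show i + 2 * (X.dim - i) = 2 * X.dim - i by omega] at this
  refine LinearEquiv.finrank_eq (LinearEquiv.ofBijective
    ((LinearMap.mulLeft W.K (W.cl X D) ^ (X.dim - i)).restrict hLm) ⟨?_, ?_⟩)
  · rw [← LinearMap.ker_eq_bot, LinearMap.ker_eq_bot']
    intro m hm
    apply Subtype.ext
    exact (hHL i hi).1 _ m.2 (congrArg Subtype.val hm)
  · rintro ⟨b, hb⟩
    obtain ⟨c, hc, hcb⟩ := (hHL i hi).2 b hb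
    exact ⟨⟨c, hc⟩, Subtype.ext hcb⟩

/-- **The inverse of the Lefschetz isomorphism and the valuation rings.** -/
theorem lef_crit (he : ∀ j, e j ∈ W.gr X (a j)) {D : X.Cycles} (hD : X.IsCyc 1 D)
    (hHL : HardLefschetz W X D) (hK : KunnethStd W X)
    (hpar : par (W.isInternal X) ∈ (algSys W).Op X X) {i : ℕ} (hi : i ≤ X.dim) :
    ∃ Θ : Matrix ι ι W.K,
      (diagonal fun k => if a k = i then (1 : W.K) else 0) * Θ = Θ ∧
      Lm e (W.cl X D) (X.dim - i) * Θ =
        (diagonal fun k => if a k = 2 * X.dim - i then (1 : W.K) else 0) ∧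
      ((∀ O : ValuationSubring (FR W.K ι), (∀ b ∈ B1 (cs e (fun j => PH.of (he j)) hpar), b ∈ O) →
        ∀ l m, cj Θ l m ∈ O) → InverseAlgebraic W X D i) := by
  have he' : ∀ j, e j ∈ PH W X (a j) := fun j => PH.of (he j)
  set j := 2 * X.dim - i with hj
  set L := Lm e (W.cl X D) (X.dim - i) with hL
  have hOA := rop_opAlg (W := W) (X := X)
  have hLh : IsHom (W.gr X) 2 (LinearMap.mulLeft W.K (W.cl X D)) := by
    simpa using hOA.hom (rop_mulLeft (W := W) hD)
  have hLm : ∀ a ∈ W.gr X i, W.cl X D ^ (X.dim - i) * a ∈ W.gr X j := by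
    intro a ha
    have := pow_L_mem hLh ha (X.dim - i)
    rw [H914.mulLeft_pow_apply] at this
    rwa [show i + 2 * (X.dim - i) = j by omega] at this
  have hcard : Fintype.card {k // a k = j} = Fintype.card {k // a k = i} := by
    rw [← finrank_gr_eq e he, ← finrank_gr_eq e he, betti_eq hD hHL hi]
  set r := Fintype.card {k // a k = i} with hr
  let ν : Fin r ≃ {k // a k = i} := (Fintype.equivFin _).symm
  let ν' : Fin r ≃ {k // a k = j} := (Fintype.equivFinOfCardEq hcard).symm
  set f : Fin r → ι := fun l => (ν l : ι) with hf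
  set f' : Fin r → ι := fun l => (ν' l : ι) with hf'
  have hfi : Function.Injective f := Subtype.val_injective.comp ν.injective
  have hfi' : Function.Injective f' := Subtype.val_injective.comp ν'.injective
  set P := (diagonal fun k => if a k = i then (1 : W.K) else 0) with hP
  set P' := (diagonal fun k => if a k = j then (1 : W.K) else 0) with hP'
  have hUV : Um W.K f * Vm W.K f = P := Um_mul_Vm ν
  have hUV' : Um W.K f' * Vm W.K f' = P' := Um_mul_Vm ν'
  have hPt : LinearMap.toMatrix e e (proj (W.isInternal X) i) = P := toMatrix_proj e he i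
  have hPt' : LinearMap.toMatrix e e (proj (W.isInternal X) j) = P' := toMatrix_proj e he j
  -- the Lefschetz operator maps the first block to the second one
  have hLP : P' * L * P = L * P := by
    rw [← hPt, ← hPt', hL, Lm, ← LinearMap.toMatrix_mul, ← LinearMap.toMatrix_mul,
      ← LinearMap.toMatrix_mul]
    congr 1
    apply LinearMap.ext
    intro x
    rw [Module.End.mul_apply, Module.End.mul_apply, Module.End.mul_apply]
    exact proj_same _ (hLm _ (H914.proj_mem _ _ _))
  set S := L.submatrix f' f with hS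
  have hVLU : Vm W.K f' * L * Um W.K f = S := Vm_mul L f' f
  have hSd : S.det ≠ 0 := by
    intro h0
    obtain ⟨v, hv, hSv⟩ := Matrix.exists_mulVec_eq_zero_iff.2 h0
    apply hv
    set x := Um W.K f *ᵥ v with hx
    have h1 : P *ᵥ x = x := by
      rw [hx, ← hUV, Matrix.mulVec_mulVec, Matrix.mul_assoc, Vm_mul_Um hfi, Matrix.mul_one]
    have h2 : L *ᵥ x = 0 := by
      calc L *ᵥ x = (L * P) *ᵥ x := by rw [← Matrix.mulVec_mulVec, h1]
        _ = (Um W.K f' * (Vm W.K f' * L * Um W.K f) * Vm W.K f) *ᵥ x := by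
            rw [← hLP, ← hUV, ← hUV']
            simp only [Matrix.mul_assoc]
        _ = (Um W.K f' * S) *ᵥ ((Vm W.K f * Um W.K f) *ᵥ v) := by
            rw [hVLU, hx]
            simp only [Matrix.mulVec_mulVec, Matrix.mul_assoc]
        _ = 0 := by
            rw [Vm_mul_Um hfi, Matrix.one_mulVec, ← Matrix.mulVec_mulVec, hSv,
              Matrix.mulVec_zero]
    set y := e.equivFun.symm x with hy
    have hyx : e.repr y = x := e.equivFun.apply_symm_apply x
    have h3 : proj (W.isInternal X) i y = y := by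
      apply e.equivFun.injective
      have h4 := LinearMap.toMatrix_mulVec_repr e e (proj (W.isInternal X) i) y
      rw [hPt, hyx, h1] at h4
      rw [Basis.equivFun_apply, Basis.equivFun_apply, ← h4, hyx]
    have h5 : W.cl X D ^ (X.dim - i) * y = 0 := by
      apply e.equivFun.injective
      have h4 := LinearMap.toMatrix_mulVec_repr e e
        (LinearMap.mulLeft W.K (W.cl X D ^ (X.dim - i))) y
      have h6 : LinearMap.toMatrix e e (LinearMap.mulLeft W.K (W.cl X D ^ (X.dim - i))) = L := rfl
      rw [h6, hyx, h2] at h4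
      rw [map_zero]
      exact h4.symm
    have h6 : y = 0 := by
      apply (hHL i hi).1 y
      · rw [← h3]; exact H914.proj_mem _ _ _
      · rw [H914.mulLeft_pow_apply]; exact h5
    have h7 : x = 0 := by
      rw [← hyx, h6]
      simp
    have h8 : Vm W.K f *ᵥ x = v := by
      rw [hx, Matrix.mulVec_mulVec, Vm_mul_Um hfi, Matrix.one_mulVec]
    rw [← h8, h7, Matrix.mulVec_zero]
  have hSu := isUnit_iff_ne_zero.2 hSd
  set Θ := Um W.K f * S⁻¹ * Vm W.K f' with hΘ
  refine ⟨Θ, ?_, ?_, fun h => ?_⟩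
  · rw [hΘ, ← hUV]
    calc Um W.K f * Vm W.K f * (Um W.K f * S⁻¹ * Vm W.K f')
        = Um W.K f * (Vm W.K f * Um W.K f) * S⁻¹ * Vm W.K f' := by simp only [Matrix.mul_assoc]
      _ = _ := by rw [Vm_mul_Um hfi, Matrix.mul_one]
  · calc L * Θ = L * (Um W.K f * (Vm W.K f * Um W.K f)) * S⁻¹ * Vm W.K f' := by
          rw [Vm_mul_Um hfi, Matrix.mul_one, hΘ]
          simp only [Matrix.mul_assoc]
      _ = (L * P) * Um W.K f * S⁻¹ * Vm W.K f' := by
          rw [← hUV]
          simp only [Matrix.mul_assoc]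
      _ = Um W.K f' * (Vm W.K f' * L * Um W.K f) * (Vm W.K f * Um W.K f) * S⁻¹ *
          Vm W.K f' := by
          rw [← hLP, ← hUV, ← hUV']
          simp only [Matrix.mul_assoc]
      _ = Um W.K f' * (S * S⁻¹) * Vm W.K f' := by
          rw [hVLU, Vm_mul_Um hfi, Matrix.mul_one]
          simp only [Matrix.mul_assoc]
      _ = P' := by rw [Matrix.mul_nonsing_inv _ hSu, Matrix.mul_one, hUV']
  · set C := cs e he' hpar with hC
    have hproj : ∀ i, proj (W.isInternal X) i ∈ (algSys W).Op X X := fun i =>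
      op_of_rop (rop_proj hK i)
    have hQ := QW_det e (algSys W) he'
    have h1 : opT (QW e) Θ ∈ C.S 2 := by
      refine crit (C := C) hQ (Vm_mul_Um hfi') (Vm_mul_Um hfi) hSd ?_ ?_ ?_ h
      · rw [hUV, ← hPt]
        exact (opT_mem_iff e he' hpar _).2 (hproj i)
      · rw [hUV', ← hPt']
        exact (opT_mem_iff e he' hpar _).2 (hproj j)
      · have h2 : Um W.K f' * S * Vm W.K f = P' * L * P := by
          rw [← hVLU, ← hUV, ← hUV']
          simp only [Matrix.mul_assoc]
        rw [h2, ← hPt, ← hPt', hL, Lm, ← LinearMap.toMatrix_mul, ← LinearMap.toMatrix_mul]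
        refine (opT_mem_iff e he' hpar _).2 (Sys.Op.comp (Sys.Op.comp (hproj j) ?_) (hproj i))
        rw [← LinearMap.pow_mulLeft]
        exact op_of_rop (hOA.pow (rop_mulLeft (W := W) hD) _)
    have h2 : Θ = LinearMap.toMatrix e e (Matrix.toLin e e Θ) :=
      (LinearMap.toMatrix_toLin e e Θ).symm
    rw [h2] at h1
    have h3 := (opT_mem_iff e he' hpar _).1 h1
    refine inv_of_op hD hK hi h3 fun x hx => ?_
    have h4 : Θ * L * P = P := by
      calc Θ * L * P = Um W.K f * S⁻¹ * (Vm W.K f' * L * Um W.K f) * Vm W.K f := by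
            rw [← hUV, hΘ]
            simp only [Matrix.mul_assoc]
        _ = Um W.K f * (S⁻¹ * S) * Vm W.K f := by
            rw [hVLU]
            simp only [Matrix.mul_assoc]
        _ = P := by rw [Matrix.nonsing_inv_mul _ hSu, Matrix.mul_one, hUV]
    have h5 : Matrix.toLin e e Θ * LinearMap.mulLeft W.K (W.cl X D ^ (X.dim - i)) *
        proj (W.isInternal X) i = proj (W.isInternal X) i := by
      apply (LinearMap.toMatrix e e).injective
      rw [LinearMap.toMatrix_mul, LinearMap.toMatrix_mul, LinearMap.toMatrix_toLin, hPt]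
      exact h4
    have h6 := congrArg (fun F => F x) h5
    simp only [Module.End.mul_apply] at h6
    rw [proj_same _ hx] at h6
    exact h6

end Pool.Agent.Q200.VL
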