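import Pool.Agent.Q60.NP.Main

/-!
# Tensors whose coordinates are combinations of the coordinates of a family of tensors
-/

set_option linter.unusedSectionVars false

namespace Pool.Agent.Q200.VL

open MvPolynomial Module Matrix Pool.Agent.Q60.ED

variable {K : Type} [Field K] {ι : Type} [Fintype ι] [DecidableEq ι]

/-- The action of permutations on tensors. -/
def act {m : ℕ} (σ : Equiv.Perm (Fin m)) : ((Fin m → ι) → K) →ₗ[K] ((Fin m → ι) → K) where
  toFun t := fun J => t (J ∘ σ)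
  map_add' _ _ := rfl
  map_smul' _ _ := rfl

lemma act_apply {m : ℕ} (σ : Equiv.Perm (Fin m)) (t : (Fin m → ι) → K) (J : Fin m → ι) :
    act σ t J = t (J ∘ σ) := rfl

lemma act_mul {m : ℕ} (σ τ : Equiv.Perm (Fin m)) (t : (Fin m → ι) → K) :
    act σ (act τ t) = act (σ * τ) t := rfl

/-- An equivariant projection along a stable subspace. -/
lemma exists_eqproj [CharZero K] {m : ℕ} (R : Submodule K ((Fin m → ι) → K))
    (hR : ∀ (σ : Equiv.Perm (Fin m)), ∀ t ∈ R, act σ t ∈ R) :
    ∃ q : ((Fin m → ι) → K) →ₗ[K] ((Fin m → ι) → K), (∀ t ∈ R, q t = 0) ∧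
      (∀ t, q t = 0 → t ∈ R) ∧ ∀ σ t, q (act σ t) = act σ (q t) := by
  obtain ⟨s, hs⟩ := R.mkQ.exists_rightInverse_of_surjective R.range_mkQ
  let q0 : ((Fin m → ι) → K) →ₗ[K] ((Fin m → ι) → K) := s ∘ₗ R.mkQ
  have h1 : ∀ t ∈ R, q0 t = 0 := by
    intro t ht
    have h2 : R.mkQ t = 0 := (Submodule.Quotient.mk_eq_zero R).2 ht
    change s (R.mkQ t) = 0
    rw [h2, map_zero]
  have h2 : ∀ t, t - q0 t ∈ R := by
    intro t
    rw [← Submodule.Quotient.mk_eq_zero, ← Submodule.mkQ_apply, map_sub]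
    have h3 := LinearMap.congr_fun hs (R.mkQ t)
    rw [LinearMap.comp_apply, LinearMap.id_apply] at h3
    change R.mkQ t - R.mkQ (s (R.mkQ t)) = 0
    rw [h3, sub_self]
  let c : K := ((Fintype.card (Equiv.Perm (Fin m)) : ℕ) : K)
  have hc : c ≠ 0 := Nat.cast_ne_zero.2 Fintype.card_ne_zero
  let q : ((Fin m → ι) → K) →ₗ[K] ((Fin m → ι) → K) :=
    c⁻¹ • ∑ σ : Equiv.Perm (Fin m), act σ⁻¹ ∘ₗ q0 ∘ₗ act σ
  have hq : ∀ t, q t = c⁻¹ • ∑ σ : Equiv.Perm (Fin m), act σ⁻¹ (q0 (act σ t)) := by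
    intro t
    simp only [q, LinearMap.smul_apply, LinearMap.sum_apply, LinearMap.comp_apply]
  refine ⟨q, ?_, ?_, ?_⟩
  · intro t ht
    rw [hq, Finset.sum_eq_zero, smul_zero]
    intro σ _
    rw [h1 _ (hR σ t ht), map_zero]
  · intro t ht
    have h3 : t - q t ∈ R := by
      have h4 : t - q t = c⁻¹ • ∑ σ : Equiv.Perm (Fin m), act σ⁻¹ (act σ t - q0 (act σ t)) := by
        rw [hq]
        simp only [map_sub, Finset.sum_sub_distrib, smul_sub]
        congr 1
        have h5 : ∀ σ : Equiv.Perm (Fin m), act σ⁻¹ (act σ t) = t := by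
          intro σ
          rw [act_mul, inv_mul_cancel]
          rfl
        simp only [h5]
        rw [Finset.sum_const, Finset.card_univ, ← Nat.cast_smul_eq_nsmul K, smul_smul,
          inv_mul_cancel₀ hc, one_smul]
      rw [h4]
      exact Submodule.smul_mem _ _ (Submodule.sum_mem _ fun σ _ => hR _ _ (h2 _))
    rwa [ht, sub_zero] at h3
  · intro τ t
    rw [hq, hq, map_smul, map_sum]
    congr 1
    refine Fintype.sum_equiv (Equiv.mulRight τ) _ _ fun σ => ?_
    rw [act_mul, act_mul, Equiv.coe_mulRight]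
    congr 2
    rw [_root_.mul_inv_rev, ← mul_assoc, mul_inv_cancel, one_mul]

section Psi

variable {m : ℕ} (q : ((Fin m → ι) → K) →ₗ[K] ((Fin m → ι) → K))

/-- The value on a product of coordinates. -/
noncomputable def pval {n : ℕ} (p : Fin n → ι × ι) : MvPolynomial (ι × ι) K :=
  ∑ σ : Fin m ≃ Fin n, xt (q (Pi.single (fun k => (p (σ k)).2) 1)) (fun k => (p (σ k)).1)

lemma pval_eq {n n' : ℕ} (p : Fin n → ι × ι) (p' : Fin n' → ι × ι)
    (h : ∑ k, Finsupp.single (p k) 1 = ∑ k, Finsupp.single (p' k) (1 : ℕ)) :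
    pval q p = pval q p' := by
  obtain ⟨e, he⟩ := exists_equiv p p' h
  rw [pval, pval]
  refine Fintype.sum_equiv (Equiv.equivCongr (Equiv.refl (Fin m)) e) _ _ fun σ => ?_
  have h1 : ∀ k, p' ((Equiv.equivCongr (Equiv.refl (Fin m)) e) σ k) = p (σ k) := by
    intro k
    rw [← he (σ k)]
    rfl
  simp only [h1]

/-- The operator on polynomials. -/
noncomputable def Psi : MvPolynomial (ι × ι) K →ₗ[K] MvPolynomial (ι × ι) K :=
  (basisMonomials (ι × ι) K).constr K fun μ =>
    pval q (exists_seq μ).choose_spec.choose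

lemma Psi_mon {n : ℕ} (I J : Fin n → ι) :
    Psi q (mon I J) = ∑ σ : Fin m ≃ Fin n, xt (q (Pi.single (J ∘ σ) 1)) (I ∘ σ) := by
  have h1 : Psi q (monomial (∑ k, Finsupp.single (I k, J k) 1) 1) =
      pval q (exists_seq (∑ k, Finsupp.single (I k, J k) 1)).choose_spec.choose := by
    have h2 := (basisMonomials (ι × ι) K).constr_basis K (fun μ =>
      pval q (exists_seq μ).choose_spec.choose)
      (∑ k, Finsupp.single (I k, J k) 1)
    rw [coe_basisMonomials] at h2
    exact h2
  rw [TSys.mon_eq, h1, pval_eq q _ (fun k => (I k, J k))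
    (exists_seq _).choose_spec.choose_spec]
  rfl

lemma xt_act {n : ℕ} (σ : Equiv.Perm (Fin n)) (t : (Fin n → ι) → K) (I : Fin n → ι) :
    xt (act σ t) I = xt t (I ∘ σ) := by
  rw [xt, xt, ← (Equiv.arrowCongr σ (Equiv.refl ι)).sum_comp]
  refine Finset.sum_congr rfl fun J _ => ?_
  have e3 : (Equiv.arrowCongr σ (Equiv.refl ι)) J = J ∘ σ.symm := rfl
  have e4 : (J ∘ σ.symm) ∘ σ = J := by funext x; simp
  rw [act_apply, e3, e4, mon, mon]
  congr 1
  rw [← Equiv.prod_comp σ]
  refine Finset.prod_congr rfl fun k _ => ?_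
  simp

lemma single_comp {n : ℕ} (σ : Equiv.Perm (Fin n)) (J : Fin n → ι) :
    (Pi.single (J ∘ σ) 1 : (Fin n → ι) → K) = act σ⁻¹ (Pi.single J 1) := by
  funext J'
  rw [act_apply, Pi.single_apply, Pi.single_apply]
  congr 1
  apply propext
  constructor
  · rintro rfl
    funext k
    simp
  · intro h
    rw [← h]
    funext k
    simp

lemma Psi_xt (hq : ∀ σ t, q (act σ t) = act σ (q t)) (w : (Fin m → ι) → K) (I : Fin m → ι) :
    Psi q (xt w I) = (Fintype.card (Equiv.Perm (Fin m)) : K) • xt (q w) I := by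
  have h1 : ∀ J : Fin m → ι, Psi q (mon I J) =
      (Fintype.card (Equiv.Perm (Fin m)) : K) • xt (q (Pi.single J 1)) I := by
    intro J
    rw [Psi_mon]
    have h2 : ∀ σ : Equiv.Perm (Fin m), xt (q (Pi.single (J ∘ σ) 1)) (I ∘ σ) =
        xt (q (Pi.single J 1)) I := by
      intro σ
      rw [single_comp, hq, xt_act]
      congr 1
      funext k
      simp
    rw [Finset.sum_congr rfl fun σ _ => h2 σ, Finset.sum_const, Finset.card_univ,
      ← Nat.cast_smul_eq_nsmul K]
  rw [xt, map_sum]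
  have h3 : ∀ J, Psi q (C (w J) * mon I J) = w J •
      ((Fintype.card (Equiv.Perm (Fin m)) : K) • xt (q (Pi.single J 1)) I) := by
    intro J
    rw [← smul_eq_C_mul, map_smul, h1]
  simp only [h3]
  simp only [smul_comm (w _) (Fintype.card (Equiv.Perm (Fin m)) : K)]
  rw [← Finset.smul_sum]
  congr 1
  have h4 : w = ∑ J, w J • (Pi.single J 1 : (Fin m → ι) → K) := by
    funext J'
    rw [Finset.sum_apply, Finset.sum_eq_single J']
    · simp
    · intro J _ hJ
      rw [Pi.smul_apply, Pi.single_apply, if_neg (Ne.symm hJ), smul_zero]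
    · intro h; exact absurd (Finset.mem_univ _) h
  conv_rhs => rw [h4, map_sum]
  simp only [map_smul]
  have h5 : ∀ (s : Finset (Fin m → ι)) (f : (Fin m → ι) → (Fin m → ι) → K),
      xt (∑ J ∈ s, f J) I = ∑ J ∈ s, xt (f J) I := by
    intro s f
    classical
    induction s using Finset.induction_on with
    | empty => rw [Finset.sum_empty, Finset.sum_empty, xt_zero]
    | insert a s ha ih => rw [Finset.sum_insert ha, Finset.sum_insert ha, xt_add, ih]
  rw [h5]
  exact Finset.sum_congr rfl fun J _ => (xt_smul _ _ _).symm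

lemma Psi_xt_ne {n : ℕ} (hn : n ≠ m) (w : (Fin n → ι) → K) (I : Fin n → ι) :
    Psi q (xt w I) = 0 := by
  rw [xt, map_sum]
  refine Finset.sum_eq_zero fun J _ => ?_
  rw [← smul_eq_C_mul, map_smul, Psi_mon]
  have h1 : IsEmpty (Fin m ≃ Fin n) := ⟨fun σ => hn (by simpa using (Fintype.card_congr σ).symm)⟩
  rw [Finset.univ_eq_empty, Finset.sum_empty, smul_zero]

end Psi

/-- **Tensors are determined by their coordinates**: if the coordinates of the tensor `t`,
multiplied by the generic matrix, are combinations of the coordinates of the tensors in a family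
of spaces of tensors which are stable under permutations, then `t` belongs to the family. -/
theorem mem_of_xt [CharZero K] (R : ∀ n : ℕ, Submodule K ((Fin n → ι) → K))
    (hR : ∀ n (σ : Equiv.Perm (Fin n)), ∀ t ∈ R n, (fun J => t (J ∘ σ)) ∈ R n) {m : ℕ}
    {t : (Fin m → ι) → K}
    (h : ∀ I, xt t I ∈ Submodule.span K {g | ∃ n, ∃ w ∈ R n, ∃ J, g = xt w J}) : t ∈ R m := by
  obtain ⟨q, h1, h2, h3⟩ := exists_eqproj (R m) fun σ t ht => hR m σ t ht
  apply h2
  have h4 : Submodule.span K {g | ∃ n, ∃ w ∈ R n, ∃ J, g = xt w J} ≤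
      LinearMap.ker (Psi q) := by
    refine Submodule.span_le.2 ?_
    rintro _ ⟨n, w, hw, J, rfl⟩
    change Psi q (xt w J) = 0
    by_cases hn : n = m
    · subst hn
      rw [Psi_xt q h3, h1 w hw, xt_zero, smul_zero]
    · exact Psi_xt_ne q hn w J
  funext I
  have h5 : Psi q (xt t I) = 0 := h4 (h I)
  rw [Psi_xt q h3] at h5
  have h6 : xt (q t) I = 0 :=
    (smul_eq_zero.1 h5).resolve_left (Nat.cast_ne_zero.2 Fintype.card_ne_zero)
  have h7 := evM_one_xt (q t) I
  rw [h6, map_zero] at h7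
  exact h7.symm

end Pool.Agent.Q200.VL
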