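import Pool.Agent.Q200.VL.Base
import Pool.Agent.H447R3.NcB

/-!
# The Lefschetz standard conjecture and self-dual lattices
-/

open CategoryTheory AlgebraicGeometry TensorProduct

set_option linter.unusedSectionVars false

universe u v

namespace Pool.Agent.Q200.VL

open Module Matrix
open Pool.Agent.H914 Pool.Agent.H914.VarClass Pool.Agent.H914.VarClass.Obj
  Pool.Agent.H914.WeilCohomology
open Pool.Agent.H447 Pool.Agent.Q56.BR Pool.Agent.H281R3.HT
open Pool.Agent.Y133.Half Pool.Agent.Y121.AH Pool.Agent.Q60.ED Pool.Agent.Q60.TD Pool.Agent.Q60.NP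
open Pool.Agent.Q60.HD (wd wd_zero wd_succ wd_map wd_prj wd_append wd_PH wb_PH sum_append' par_op
  two_inv par_prod par_pw sg sg_mem sg_xp wb_xp)

variable {k : Type u} [Field k] {𝒱 : VarClass k} {ops : CycleOps 𝒱}
  {W : WeilCohomology.{u, 0} ops} {X Y Z : 𝒱.Obj}

lemma par_of_kunneth (hK : KunnethStd W X) : par (W.isInternal X) ∈ (algSys W).Op X X := by
  have h1 : par (W.isInternal X) =
      scal (W.isInternal X) (fun i => (((-1 : ℚ) ^ i : ℚ) : W.K)) := by
    rw [par]
    congr 1
    funext i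
    push_cast
    rfl
  rw [h1]
  exact op_of_rop (rop_scal hK fun i => (-1 : ℚ) ^ i)

section Generic

variable {ι : Type} [Fintype ι] [DecidableEq ι] (e : Basis ι W.K (W.H X)) {a : ι → ℕ}

/-- The generic matrix as a matrix over the extended coefficients. -/
noncomputable def Gx (W : WeilCohomology.{u, 0} ops) (ι : Type) [Fintype ι] [DecidableEq ι] :
    Matrix ι ι (baseW W (FR W.K ι)).K := XF W.K ι

/-- The inverse of the generic matrix. -/
noncomputable def Gy (W : WeilCohomology.{u, 0} ops) (ι : Type) [Fintype ι] [DecidableEq ι] :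
    Matrix ι ι (baseW W (FR W.K ι)).K := ((XF W.K ι)⁻¹ : Matrix ι ι (FR W.K ι))

lemma Gx_Gy : Gx W ι * Gy W ι = 1 :=
  (Matrix.mul_nonsing_inv (XF W.K ι) XF_unit : XF W.K ι * (XF W.K ι)⁻¹ = 1)

lemma Gy_Gx : Gy W ι * Gx W ι = 1 :=
  (Matrix.nonsing_inv_mul (XF W.K ι) XF_unit : (XF W.K ι)⁻¹ * XF W.K ι = 1)

/-- The generic basis. -/
noncomputable def gb : Basis ι (baseW W (FR W.K ι)).K ((baseW W (FR W.K ι)).H X) :=
  fb e (Gx W ι) (Gy W ι) Gx_Gy Gy_Gx

variable (he : ∀ j, e j ∈ W.gr X (a j)) (hpar : par (W.isInternal X) ∈ (algSys W).Op X X)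
  {O : ValuationSubring (baseW W (FR W.K ι)).K}

/-- The valuation ring contains the algebra of the coordinates. -/
def Dom (O : ValuationSubring (baseW W (FR W.K ι)).K) : Prop :=
  ∀ b : FR W.K ι, b ∈ B1 (cs e (fun j => PH.of (he j)) hpar) →
    (show (baseW W (FR W.K ι)).K from b) ∈ O

set_option maxRecDepth 100000 in
/-- The generic lattice over a valuation ring which contains the algebra of the coordinates. -/
theorem generic_lattice {r : ℕ} (ν : ι ≃ Fin r) (hK : KunnethStd W X) (hO : Dom e he hpar O) :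
    GLat (baseW W (FR W.K ι)) X O (Submodule.span O (Set.range (gb e))) := by
  have he' : ∀ j, e j ∈ PH W X (a j) := fun j => PH.of (he j)
  have hQ := QW_det e (algSys W) he'
  have h1 : ∀ i j, ((Gy W ι).transpose * (QW e).map (exR W (FR W.K ι)) * Gy W ι) i j ∈ O :=
    fun i j => hO _ (QX_mem (C := cs e he' hpar) hQ i j)
  have h2 : ∀ i j, (Gx W ι * ((QW e)⁻¹).map (exR W (FR W.K ι)) * (Gx W ι).transpose) i j ∈ O :=
    fun i j => hO _ (OmX_mem (C := cs e he' hpar) i j)
  have h3 : ∀ d i j, (Gx W ι * ((diagonal fun l => if a l = d then (1 : W.K) else 0).map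
      (exR W (FR W.K ι))) * Gy W ι) i j ∈ O := by
    intro d i j
    refine hO _ (cj_mem (C := cs e he' hpar) hQ
      (A := diagonal fun l => if a l = d then (1 : W.K) else 0) ?_ i j)
    rw [← toMatrix_proj e he]
    exact (opT_mem_iff e he' hpar _).2 (op_of_rop (rop_proj hK d))
  exact lattice_of (F := FR W.K ι) e (Gx W ι) (Gy W ι) Gx_Gy Gy_Gx he hQ h1 h2 h3 ν

set_option maxRecDepth 100000 in
/-- The classes of cycles are integral for the generic lattice. -/
theorem generic_cycles (hO : Dom e he hpar O) (n : ℕ) :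
    CycInt (baseW W (FR W.K ι)) X O (Submodule.span O (Set.range (gb e))) n := by
  have h3 : ∀ j z, (pw X n).IsCyc j z → ∀ w : Fin (n + 1) → ι, ∑ J : Fin (n + 1) → ι,
      (∏ l, Gx W ι (w l) (J l)) * ex W (FR W.K ι) (tn e n (W.cl (pw X n) z) J) ∈ O := by
    intro j z hz w
    have h1 : tn e n (W.cl (pw X n) z) ∈ (cs e (fun j => PH.of (he j)) hpar).S (n + 1) := by
      change _ ∈ crdK e (algSys W) (n + 1)
      rw [mem_crdK_succ, clsK_tn]
      exact Submodule.subset_span (Set.mem_iUnion.2 ⟨j, z, hz, rfl⟩)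
    have h2 := hO _ (B0_le (xt_mem_B0 h1 w))
    rw [xt_FR, tpow_apply] at h2
    exact h2
  exact cycles_of (F := FR W.K ι) e (Gx W ι) (Gy W ι) Gx_Gy Gy_Gx h3

end Generic

/-- The criterion implies that the inverse is algebraic. -/
theorem inv_of_crit' {ι : Type} [Fintype ι] [DecidableEq ι] (e : Basis ι W.K (W.H X))
    {a : ι → ℕ} (he : ∀ j, e j ∈ W.gr X (a j)) {r : ℕ} (ν : ι ≃ Fin r)
    {D : X.Cycles} (hD : X.IsCyc 1 D) (hHL : HardLefschetz W X D)
    (hK : KunnethStd W X) {i : ℕ} (hi : i ≤ X.dim)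
    (h : LatCrit W X D Set.univ i) : InverseAlgebraic W X D i := by
  classical
  have hpar := par_of_kunneth hK
  obtain ⟨Θ, h1, h2, h3⟩ := lef_crit e he hD hHL hK hpar hi
  refine h3 fun O hO l m => ?_
  let O' : ValuationSubring (baseW W (FR W.K ι)).K := O
  have hO' : Dom e he hpar O' := hO
  set M : Submodule O' ((baseW W (FR W.K ι)).H X) := Submodule.span O' (Set.range (gb e)) with hM
  have hlat : GLat (baseW W (FR W.K ι)) X O' M := generic_lattice e he hpar ν hK hO'
  have hcoef : ContainsCoeff W (FR W.K ι) O' := fun c => hO _ (Subalgebra.algebraMap_mem _ c)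
  have hL : IntLef (baseW W (FR W.K ι)) X D O' M i := h (FR W.K ι) O' M hcoef hlat
    fun n _ => generic_cycles e he hpar hO' n
  -- the operator
  set F := FR W.K ι with hF
  set e' := eb F e with he1
  set Θ' := Θ.map (exR W F) with hΘ'
  set B := Matrix.toLin e' e' Θ' with hB
  have hBm : LinearMap.toMatrix e' e' B = Θ' := LinearMap.toMatrix_toLin e' e' Θ'
  have hPm : ∀ d, LinearMap.toMatrix e' e' (proj ((baseW W F).isInternal X) d) =
      (diagonal fun k => if a k = d then (1 : W.K) else 0).map (exR W F) := by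
    intro d
    rw [toMatrix_proj e' (eb_gr F e he)]
    ext i j
    rw [Matrix.map_apply, Matrix.diagonal_apply, Matrix.diagonal_apply]
    split_ifs <;> simp
  have hB1 : proj ((baseW W F).isInternal X) i * B = B := by
    apply (LinearMap.toMatrix e' e').injective
    rw [LinearMap.toMatrix_mul, hPm, hBm, hΘ', ← Matrix.map_mul, h1]
  have hB2 : LinearMap.mulLeft (baseW W F).K ((baseW W F).cl X D ^ (X.dim - i)) * B =
      proj ((baseW W F).isInternal X) (2 * X.dim - i) := by
    apply (LinearMap.toMatrix e' e').injective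
    have e1 : LinearMap.toMatrix e' e'
        (LinearMap.mulLeft (baseW W F).K ((baseW W F).cl X D ^ (X.dim - i))) =
        (Lm e (W.cl X D) (X.dim - i)).map (exR W F) := by
      refine toMatrix_eb F e fun x => ?_
      rw [LinearMap.mulLeft_apply, LinearMap.mulLeft_apply, em_mul]
      congr 1
      exact (map_pow (emR F X) (W.cl X D) (X.dim - i)).symm
    rw [LinearMap.toMatrix_mul, hPm, hBm, e1, hΘ', ← Matrix.map_mul, h2]
  -- integrality
  have hBM : B (gb e m) ∈ M := by
    have hfm : gb e m ∈ M := basis_mem (gb e) hM m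
    obtain ⟨x, hxM, hxg, hxy⟩ := hL _ (hlat.graded _ hfm (2 * X.dim - i)) (H914.proj_mem _ _ _)
    have e1 : x = B (gb e m) := by
      rw [← sub_eq_zero]
      apply (base_hardLefschetz (L := F) hD hHL i hi).1
      · refine Submodule.sub_mem _ hxg ?_
        rw [← hB1, Module.End.mul_apply]
        exact H914.proj_mem _ _ _
      · rw [H914.mulLeft_pow_apply, mul_sub]
        refine sub_eq_zero.2 (hxy.trans ?_)
        exact (congrArg (fun T => T (gb e m)) hB2).symm
    rw [← e1]
    exact hxM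
  have h5 := (mem_span_iff (gb e) hM _).1 hBM l
  have h6 : (gb e).repr (B (gb e m)) l = cj Θ l m := by
    rw [← LinearMap.toMatrix_apply, gb, toMatrix_fb_fb, hBm]
    rfl
  rw [h6] at h5
  exact h5

/-- The criterion implies that the inverse is algebraic. -/
theorem inv_of_crit {D : X.Cycles} (hD : X.IsCyc 1 D) (hHL : HardLefschetz W X D)
    (hK : KunnethStd W X) {i : ℕ} (hi : i ≤ X.dim)
    (h : LatCrit W X D Set.univ i) : InverseAlgebraic W X D i := by
  obtain ⟨e, a, he⟩ := exists_grbasis W X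
  exact inv_of_crit' e he (Equiv.refl _) hD hHL hK hi h

/-- If the inverse is algebraic, then the criterion holds. -/
theorem crit_of_inv {D : X.Cycles} (hD : X.IsCyc 1 D) (hHL : HardLefschetz W X D)
    {i : ℕ} (hi : i ≤ X.dim) (h : InverseAlgebraic W X D i) {N : Set ℕ} (hN : 1 ∈ N) :
    LatCrit W X D N i := by
  intro F _ _ O M _ hlat hcyc y hy hyg
  obtain ⟨z, hz, hzi⟩ := h
  obtain ⟨x, hx, hxy⟩ := (base_hardLefschetz (L := F) hD hHL i hi).2 y hyg
  rw [H914.mulLeft_pow_apply] at hxy
  refine ⟨x, ?_, hx, hxy⟩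
  have h1 : cor1 (baseW W F) X ((baseW W F).cl (X.prod X) z) y ∈ M :=
    corr_stable (fun x hx y hy => (hlat.selfDual x).1 hx y hy) hlat.graded
      (hcyc 1 hN i z hz) hy
  have h2 : ∀ x ∈ (baseW W F).gr X i, (baseW W F).corr ((baseW W F).cl (X.prod X) z)
      ((baseW W F).cl X D ^ (X.dim - i) * x) = x := by
    intro x hx
    have hx' : x ∈ (W.gr X i).baseChange F := hx
    refine base_induction (P := fun x : F ⊗[W.K] W.H X =>
      (baseW W F).corr ((baseW W F).cl (X.prod X) z)
        ((baseW W F).cl X D ^ (X.dim - i) * (show (baseW W F).H X from x)) =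
        (show (baseW W F).H X from x)) ?_ ?_ ?_ hx'
    · exact (congrArg _ (mul_zero _)).trans (map_zero _)
    · intro x y hx hy
      have e1 : (baseW W F).cl X D ^ (X.dim - i) *
          ((show (baseW W F).H X from x) + (show (baseW W F).H X from y)) =
          (baseW W F).cl X D ^ (X.dim - i) * (show (baseW W F).H X from x) +
          (baseW W F).cl X D ^ (X.dim - i) * (show (baseW W F).H X from y) := mul_add _ _ _
      refine (congrArg _ e1).trans ((map_add _ _ _).trans ?_)
      rw [hx, hy]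
      rfl
    · intro l a ha
      have e1 : (show (baseW W F).H X from (l ⊗ₜ[W.K] a)) =
          (show (baseW W F).K from l) • em W F a := tmul_eq l a
      rw [e1, mul_smul_comm, map_smul]
      congr 1
      have e2 : (baseW W F).cl X D ^ (X.dim - i) * em W F a =
          em W F (W.cl X D ^ (X.dim - i) * a) := by
        rw [em_mul]
        congr 1
        exact (map_pow (emR F X) (W.cl X D) (X.dim - i)).symm
      rw [e2, em_cl, corr_apply, em_map, ← em_mul, em_push, ← corr_apply, hzi a ha]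
  have h3 := h2 x hx
  rw [hxy] at h3
  rw [← h3]
  exact h1

/-- **The Lefschetz standard conjecture and self-dual lattices.** -/
theorem main1 {D : X.Cycles} (hD : X.IsCyc 1 D) (hHL : HardLefschetz W X D) :
    (KunnethStd W X → ∀ i ≤ X.dim, ∀ N : Set ℕ, 1 ∈ N →
      (InverseAlgebraic W X D i ↔ LatCrit W X D N i)) ∧
    ∀ N : Set ℕ, 1 ∈ N →
      (LefschetzB W X D ↔ KunnethStd W X ∧ ∀ i ≤ X.dim, LatCrit W X D N i) := by
  have h1 : KunnethStd W X → ∀ i ≤ X.dim, ∀ N : Set ℕ, 1 ∈ N →
      (InverseAlgebraic W X D i ↔ LatCrit W X D N i) := by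
    intro hK i hi N hN
    constructor
    · intro h
      exact crit_of_inv hD hHL hi h hN
    · intro h
      refine inv_of_crit hD hHL hK hi ?_
      intro F _ _ O M h1 h2 h3
      exact h F O M h1 h2 fun n _ => h3 n (Set.mem_univ n)
  have h2 : KunnethStd W X → (LefschetzB W X D ↔ ∀ i ≤ X.dim, InverseAlgebraic W X D i) := by
    intro hK
    choose P hP1 hP2 using hK
    obtain ⟨h3, h4⟩ := rank_main hD hHL hP1 hP2
    rw [h4]
    exact forall₂_congr fun i hi => (h3 i hi).2
  refine ⟨h1, fun N hN => ?_⟩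
  constructor
  · intro hB
    have h3 : LefschetzB W X D ↔ KunnethStd W X ∧ CentralCommute W X D :=
      (central_tfae hD hHL).out 0 1
    have hK : KunnethStd W X := (h3.1 hB).1
    exact ⟨hK, fun i hi => (h1 hK i hi N hN).1 ((h2 hK).1 hB i hi)⟩
  · rintro ⟨hK, h⟩
    exact (h2 hK).2 fun i hi => (h1 hK i hi N hN).2 (h i hi)

end Pool.Agent.Q200.VL
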