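import Pool.Agent.Q200.VL.Pair
import Pool.Agent.Q60.NP.PMain
import Pool.Agent.H447R3.SpC

/-!
# Numerically trivial classes degenerate to zero
-/

open CategoryTheory AlgebraicGeometry TensorProduct

set_option linter.unusedSectionVars false

universe u v

namespace Pool.Agent.Q200.VL

open Module Matrix
open Pool.Agent.H914 Pool.Agent.H914.VarClass Pool.Agent.H914.VarClass.Obj
  Pool.Agent.H914.WeilCohomology
open Pool.Agent.H447 Pool.Agent.Q56.BR Pool.Agent.H281R3.HT Pool.Agent.Q55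
open Pool.Agent.Y133.Half Pool.Agent.Y121.AH Pool.Agent.Q60.ED Pool.Agent.Q60.TD Pool.Agent.Q60.NP
open Pool.Agent.Q60.HD (wd wd_zero wd_succ wd_map wd_prj wd_append wd_PH wb_PH sum_append' par_op
  two_inv par_prod par_pw sg sg_mem sg_xp wb_xp)

variable {k : Type u} [Field k] {𝒱 : VarClass k} {ops : CycleOps 𝒱}
  {W : WeilCohomology.{u, 0} ops} {X Y Z : 𝒱.Obj}

/-- A class which degenerates to zero is numerically trivial. -/
theorem num_of_degenerates {n j : ℕ} (hj : j ≤ (pw X n).dim) {z : (pw X n).Cycles}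
    (hz : (pw X n).IsCyc j z) (h : DegeneratesToZero W X n z) :
    IsNumTrivial ops (pw X n) j z := by
  intro w hw
  obtain ⟨W', s, E, O, M, hE, hO, hM, hzm⟩ := h
  obtain ⟨b, f, hf⟩ := hM.lattice
  set M' : Submodule O (W'.H X) := Submodule.span O (Set.range f) with hM'
  have h1 : (M' : Set (W'.H X)) = M := by
    rw [hf]
    ext x
    exact mem_span_iff f hM' x
  subst h1
  have h2 : (2 : W'.K)⁻¹ ∈ O := by
    have h3 := hO ((2 : W.K)⁻¹)
    rwa [map_inv₀, map_ofNat] at h3
  have h3 : W'.tr (pw X n) (W'.cl (pw X n) z * W'.cl (pw X n) w) ∈ O.nonunits :=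
    tr_zeroMod (fun x hx y hy => (hM.selfDual x).1 hx y hy) ((split_iff h2).1 hM.split) h2 hzm
      (hM.cycles n _ w hw)
  rw [Pool.Agent.W534.tr_mul_cl' hz hw (by omega)] at h3
  by_contra h0
  refine not_nu O (x := s (((pw X n).V.degCycle (ops.mul z w) : ℚ) : W.K)⁻¹) (hO _) ?_ h3
  rw [map_inv₀, map_ratCast]
  exact inv_mul_cancel₀ (Rat.cast_ne_zero.2 h0)

lemma toMatrix_par {ι : Type} [Fintype ι] [DecidableEq ι] (e : Basis ι W.K (W.H X)) {a : ι → ℕ}
    (he : ∀ j, e j ∈ PH W X (a j)) : LinearMap.toMatrix e e (par (W.isInternal X)) =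
      diagonal fun k => (-1 : W.K) ^ a k := by
  ext k m
  rw [LinearMap.toMatrix_apply, Matrix.diagonal_apply, PH.par (he m), map_smul,
    Basis.repr_self, Finsupp.smul_apply, smul_eq_mul]
  by_cases hk : k = m
  · subst hk
    rw [Finsupp.single_eq_same, if_pos rfl, mul_one]
  · rw [Finsupp.single_eq_of_ne hk, if_neg hk, mul_zero]

section Generic

variable {ι : Type} [Fintype ι] [DecidableEq ι] (e : Basis ι W.K (W.H X)) {a : ι → ℕ}
  (he : ∀ j, e j ∈ W.gr X (a j)) (hpar : par (W.isInternal X) ∈ (algSys W).Op X X)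
  {O : ValuationSubring (baseW W (FR W.K ι)).K}

set_option maxRecDepth 100000 in
lemma gb_gram (i j : ι) : (baseW W (FR W.K ι)).tr X (gb e i * gb e j) =
    ((Gy W ι).transpose * (QW e).map (exR W (FR W.K ι)) * Gy W ι) i j :=
  gram_fb (F := FR W.K ι) e (Gx W ι) (Gy W ι) Gx_Gy Gy_Gx i j

set_option maxRecDepth 100000 in
lemma gb_toMatrix (B' : Module.End (baseW W (FR W.K ι)).K ((baseW W (FR W.K ι)).H X)) :
    LinearMap.toMatrix (gb e) (gb e) B' =
      Gx W ι * LinearMap.toMatrix (eb (FR W.K ι) e) (eb (FR W.K ι) e) B' * Gy W ι :=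
  toMatrix_fb_fb (F := FR W.K ι) e (Gx W ι) (Gy W ι) Gx_Gy Gy_Gx B'

set_option maxRecDepth 100000 in
lemma gb_change : (gb e).toMatrix (eb (FR W.K ι) e) = Gx W ι :=
  fb_toMatrix (F := FR W.K ι) e (Gx W ι) (Gy W ι) Gx_Gy Gy_Gx

/-- The generic lattice is admissible. -/
theorem generic_admissible {r : ℕ} (ν : ι ≃ Fin r) (hO : Dom e he hpar O) :
    IsAdmissible (baseW W (FR W.K ι)) X O
      ((Submodule.span O (Set.range (gb e)) : Submodule O ((baseW W (FR W.K ι)).H X)) :
        Set ((baseW W (FR W.K ι)).H X)) := by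
  have he' : ∀ j, e j ∈ PH W X (a j) := fun j => PH.of (he j)
  have hQ := QW_det e (algSys W) he'
  have h2 : (2 : (baseW W (FR W.K ι)).K)⁻¹ ∈ O := by
    have h3 := hO _ (Subalgebra.algebraMap_mem (B1 (cs e he' hpar)) ((2 : W.K)⁻¹))
    have h4 : (show (baseW W (FR W.K ι)).K from algebraMap W.K (FR W.K ι) ((2 : W.K)⁻¹)) =
        exR W (FR W.K ι) ((2 : W.K)⁻¹) := rfl
    rw [h4, map_inv₀, map_ofNat] at h3
    exact h3
  refine ⟨?_, ?_, ?_, ?_⟩
  · refine ⟨r, (gb e).reindex ν, ?_⟩
    ext x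
    rw [SetLike.mem_coe, mem_span_iff (gb e) rfl]
    simp only [Basis.repr_reindex_apply]
    exact ⟨fun h i => h _, fun h l => by simpa using h (ν l)⟩
  · intro x
    refine selfDual_of (gb e) rfl
      (N := Gx W ι * ((QW e)⁻¹).map (exR W (FR W.K ι)) * (Gx W ι).transpose)
      (fun i j => ?_) (fun i j => hO _ (OmX_mem (C := cs e he' hpar) i j)) ?_ x
    · rw [gb_gram]
      exact hO _ (QX_mem (C := cs e he' hpar) hQ i j)
    · have h1 : (Matrix.of fun i j => (baseW W (FR W.K ι)).tr X (gb e i * gb e j)) =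
          (Gy W ι).transpose * (QW e).map (exR W (FR W.K ι)) * Gy W ι := by
        ext i j
        exact gb_gram e i j
      rw [h1]
      exact QX_OmX hQ
  · rw [split_iff h2]
    intro x hx
    refine op_stable (gb e) rfl (fun i j => ?_) hx
    rw [gb_toMatrix, toMatrix_par (eb (FR W.K ι) e) fun j => PH.of (eb_gr (FR W.K ι) e he j)]
    have h1 : (diagonal fun l => (-1 : W.K) ^ a l).map (exR W (FR W.K ι)) =
        diagonal fun l => (-1 : (baseW W (FR W.K ι)).K) ^ a l := by
      ext i j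
      rw [Matrix.map_apply, Matrix.diagonal_apply, Matrix.diagonal_apply]
      split_ifs <;> simp
    rw [← h1]
    refine hO _ (cj_mem (C := cs e he' hpar) hQ (A := diagonal fun l => (-1 : W.K) ^ a l) ?_ i j)
    rw [← toMatrix_par e he']
    exact (opT_mem_iff e he' hpar _).2 hpar
  · intro n
    exact cycInt_iff.2 (generic_cycles e he hpar hO n)

/-- The classes with coordinates in the maximal ideal. -/
theorem generic_zeroMod {n : ℕ} (c : W.H (pw X n))
    (h : ∀ w, (show (baseW W (FR W.K ι)).K from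
      algebraMap (MvPolynomial (ι × ι) W.K) (FR W.K ι) (xt (tn e n c) w)) ∈ O.nonunits) :
    IsZeroMod O ((Submodule.span O (Set.range (gb e)) :
      Submodule O ((baseW W (FR W.K ι)).H X)) : Set ((baseW W (FR W.K ι)).H X))
      (fun i => (baseW W (FR W.K ι)).map (prj X n i)) (em W (FR W.K ι) c) := by
  refine zeroMod_of (gb e) rfl n fun w => ?_
  rw [wb_change (gb e) (eb (FR W.K ι) e), gb_change]
  simp only [wb_eb_repr]
  have h1 := h w
  rw [xt_FR, tpow_apply] at h1
  exact h1

end Generic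

/-- A numerically trivial class degenerates to zero. -/
theorem degenerates_of_num' {ι : Type} [Fintype ι] [DecidableEq ι] (e : Basis ι W.K (W.H X))
    {a : ι → ℕ} (he : ∀ j, e j ∈ W.gr X (a j)) {r : ℕ} (ν : ι ≃ Fin r) (hS : SignStd W X)
    {n j : ℕ} (hj : j ≤ (pw X n).dim) {z : (pw X n).Cycles} (hz : (pw X n).IsCyc j z)
    (h : IsNumTrivial ops (pw X n) j z) : DegeneratesToZero W X n z := by
  have hpar : par (W.isInternal X) ∈ (algSys W).Op X X := op_of_rop (par_rop_of_sign hS)
  have he' : ∀ j, e j ∈ PH W X (a j) := fun j => PH.of (he j)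
  have hQ := QW_det e (algSys W) he'
  set C := cs e he' hpar with hC
  have hc := num_of_cycle (W := W) hj hz h
  have hrad : tn e n (W.cl (pw X n) z) ∈ C.rad (n + 1) := by
    refine ⟨?_, fun w hw => ?_⟩
    · change _ ∈ crdK e (algSys W) (n + 1)
      rw [mem_crdK_succ, clsK_tn]
      exact hc.1
    · obtain ⟨Ψ, hΨ, hb'⟩ := exists_psiK e he' hpar (Q := QW e) (fun i j => rfl) n
      rw [bf_cls e hb', clsK_tn]
      refine (op_num hΨ hc).2 _ ?_
      have h5 : w ∈ crdK e (algSys W) (n + 1) := hw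
      rw [mem_crdK_succ] at h5
      exact h5
  obtain ⟨O, hO, hv⟩ := rad_val hQ hrad
  let O' : ValuationSubring (baseW W (FR W.K ι)).K := O
  have hO' : Dom e he hpar O' := hO
  exact ⟨baseW W (FR W.K ι), exR W (FR W.K ι), fun _ => em W (FR W.K ι), O', _,
    isCoeffExtension_base W _, fun c => hO _ (Subalgebra.algebraMap_mem _ c),
    generic_admissible e he hpar ν hO', generic_zeroMod e _ hv⟩

theorem degenerates_of_num (hS : SignStd W X) {n j : ℕ} (hj : j ≤ (pw X n).dim)
    {z : (pw X n).Cycles} (hz : (pw X n).IsCyc j z) (h : IsNumTrivial ops (pw X n) j z) :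
    DegeneratesToZero W X n z := by
  obtain ⟨e, a, he⟩ := exists_grbasis W X
  exact degenerates_of_num' e he (Equiv.refl _) hS hj hz h

/-- **Numerical triviality and degeneration.** -/
theorem mainD (hS : SignStd W X) {n j : ℕ} (hj : j ≤ (pw X n).dim)
    {z : (pw X n).Cycles} (hz : (pw X n).IsCyc j z) :
    IsNumTrivial ops (pw X n) j z ↔ DegeneratesToZero W X n z :=
  ⟨degenerates_of_num hS hj hz, num_of_degenerates hj hz⟩

/-- **The conjecture D and degenerations.** -/
theorem mainD' {D : X.Cycles} (hD : X.IsCyc 1 D) (hHL : HardLefschetz W X D) :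
    (∀ n, HomEqNum W (pw X n)) ↔ SignStd W X ∧ ∀ n, ∀ j ≤ (pw X n).dim, ∀ z,
      (pw X n).IsCyc j z → DegeneratesToZero W X n z → W.cl (pw X n) z = 0 := by
  constructor
  · intro h
    have hB : LefschetzB W X D := lefschetzB_of_square hD hHL (h 1)
    have h3 : LefschetzB W X D ↔ KunnethStd W X ∧ CentralCommute W X D :=
      (central_tfae hD hHL).out 0 1
    have hK : KunnethStd W X := (h3.1 hB).1
    refine ⟨sign_of_kunneth fun i => rop_proj hK i, fun n j hj z hz hdeg => ?_⟩
    exact h n j hj z hz (num_of_degenerates hj hz hdeg)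
  · rintro ⟨hS, h⟩ n j hj z hz hnum
    exact h n j hj z hz (degenerates_of_num hS hj hz hnum)

end Pool.Agent.Q200.VL
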