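import Pool.Agent.Q200.VL.Crit
import Pool.Agent.Q60.NP.Kun
import Pool.Agent.Q60.NP.Geo

/-!
# The operators of a system of classes and their tensors
-/

open CategoryTheory AlgebraicGeometry TensorProduct

set_option linter.unusedSectionVars false

universe u v

namespace Pool.Agent.Q200.VL

open Module Matrix
open Pool.Agent.H914 Pool.Agent.H914.VarClass Pool.Agent.H914.VarClass.Obj
  Pool.Agent.H914.WeilCohomology
open Pool.Agent.Y133.Half Pool.Agent.Y121.AH Pool.Agent.Q60.ED Pool.Agent.Q60.TD Pool.Agent.Q60.NP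
open Pool.Agent.Q60.HD (wd wd_zero wd_succ wd_map wd_prj wd_append wd_PH wb_PH sum_append' par_op
  two_inv par_prod par_pw sg sg_mem sg_xp wb_xp)

variable {k : Type u} [Field k] {𝒱 : VarClass k} {ops : CycleOps 𝒱}
  {W : WeilCohomology.{u, 0} ops} {X Y Z : 𝒱.Obj} {ι : Type} [Fintype ι] [DecidableEq ι]
  (e : Basis ι W.K (W.H X)) {a : ι → ℕ} {S : Sys W}

/-- The tensors of even classes vanish on odd words. -/
lemma tn_odd (he : ∀ j, e j ∈ PH W X (a j)) {n : ℕ} {c : W.H (pw X n)}
    (hc : c ∈ PH W (pw X n) 0) (w : Fin (n + 1) → ι) (hw : (∑ i, a (w i)) % 2 = 1) :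
    tn e n c w = 0 := by
  have h1 := PH.par hc
  rw [pow_zero, one_smul] at h1
  have h2 : H914.par (W.isInternal (pw X n)) (clsK e (prj X n) (tn e n c)) =
      clsK e (prj X n) (fun w => (-1 : W.K) ^ (∑ i, a (w i)) * tn e n c w) := by
    rw [clsK, map_sum, clsK]
    refine Finset.sum_congr rfl fun w _ => ?_
    rw [map_smul, PH.par (wd_PH e he _ w), smul_smul, mul_comm]
  rw [clsK_tn, h1] at h2
  have h3 := congrArg (tn e n) h2
  rw [tn_cls] at h3
  have h4 := congrFun h3 w
  have h5 : (-1 : W.K) ^ (∑ i, a (w i)) = -1 := (Nat.odd_iff.2 hw).neg_one_pow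
  simp only [h5] at h4
  have h6 : (2 : W.K) * tn e n c w = 0 := by linear_combination h4
  exact (mul_eq_zero.1 h6).resolve_left two_ne_zero

/-- The tensor of the operator of a class of the system. -/
lemma opT_cor1 (he : ∀ j, e j ∈ PH W X (a j)) {γ : W.H (pw X 1)} (hγ : γ ∈ PH W (pw X 1) 0)
    (hQ : (QW e).det ≠ 0) :
    opT (QW e) (LinearMap.toMatrix e e (cor1 W X γ)) =
      fun J => (chiK W.K a (1 : Fin 2) * tn e 1 γ) (J ∘ Equiv.swap (0 : Fin 2) 1) := by
  set T := tn e 1 γ with hT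
  have hu := isUnit_iff_ne_zero.2 hQ
  have h1 : LinearMap.toMatrix e e (cor1 W X γ) =
      (Matrix.of fun j i => (-1 : W.K) ^ (a j) * T ![i, j]) * QW e := by
    ext j kk
    rw [LinearMap.toMatrix_apply, Matrix.mul_apply]
    have h0 : clsK e (prj X 1) T = γ := clsK_tn e 1 _
    have e1 : cor1 W X γ (e kk) = ∑ i, ∑ j, (T ![i, j] * ((-1 : W.K) ^ (a j * a kk) *
        W.tr X (e i * e kk))) • e j := by
      rw [← h0, clsK, map_sum, LinearMap.sum_apply, sum_fin2]
      refine Finset.sum_congr rfl fun i _ => Finset.sum_congr rfl fun j _ => ?_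
      rw [map_smul, LinearMap.smul_apply, wd_prj, cor1_wb e he, smul_smul]
      rfl
    rw [e1]
    simp only [map_sum, map_smul, Finsupp.coe_finsetSum, Finset.sum_apply, Finsupp.smul_apply,
      Basis.repr_self, smul_eq_mul]
    refine Finset.sum_congr rfl fun i _ => ?_
    rw [Finset.sum_eq_single j]
    · rw [Finsupp.single_eq_same, mul_one, Matrix.of_apply, QW_apply]
      by_cases h2 : (a i + a j) % 2 = 1
      · have h3 : T ![i, j] = 0 := by
          refine tn_odd e he hγ _ ?_
          rw [Fin.sum_univ_two]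
          exact h2
        rw [h3]
        ring
      · by_cases h3 : (a i + a kk) % 2 = 1
        · rw [PH.tr_odd (PH.mul (he i) (he kk)) h3]
          ring
        · have h4 : (-1 : W.K) ^ (a j * a kk) = (-1 : W.K) ^ a j := by
            apply neg_pow_congr
            have h5 : a kk % 2 = a j % 2 := by omega
            rw [Nat.mul_mod, h5]
            rcases Nat.mod_two_eq_zero_or_one (a j) with h6 | h6
            · rw [h6]
            · rw [h6]
          rw [h4]
          ring
    · intro j' _ hj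
      rw [Finsupp.single_eq_of_ne (Ne.symm hj), mul_zero]
    · intro h; exact absurd (Finset.mem_univ _) h
  funext w
  rw [opT, h1, Matrix.mul_assoc, Matrix.mul_nonsing_inv _ hu, Matrix.mul_one, Matrix.of_apply,
    Pi.mul_apply, chiK]
  have h2 : (w ∘ Equiv.swap (0 : Fin 2) 1) = ![w 1, w 0] := by
    funext l
    fin_cases l <;> rfl
  rw [h2]
  rfl

/-- **The operators of the system and their tensors.** -/
theorem opT_mem_iff (he : ∀ j, e j ∈ PH W X (a j)) (hpar : par (W.isInternal X) ∈ S.Op X X)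
    (B : Module.End W.K (W.H X)) :
    opT (QW e) (LinearMap.toMatrix e e B) ∈ (cs e he hpar).S 2 ↔ B ∈ S.Op X X := by
  have hQ := QW_det e S he
  have hu := isUnit_iff_ne_zero.2 hQ
  constructor
  · intro h
    have h' : opT (QW e) (LinearMap.toMatrix e e B) ∈ crdK e S 2 := h
    set s := opT (QW e) (LinearMap.toMatrix e e B) with hs
    have h1 := chiK_mem (S := S) e he hpar (1 : Fin 2) _
      (crdK_perm (S := S) e he hpar (Equiv.swap (0 : Fin 2) 1) h')
    set T := chiK W.K a (1 : Fin 2) * (fun J => s (J ∘ Equiv.swap (0 : Fin 2) 1)) with hT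
    have h2 : clsK e (prj X 1) T ∈ S.C (pw X 1) := mem_crdK_succ e |>.1 h1
    have h3 := opT_cor1 e he (S.even h2) hQ
    rw [tn_cls] at h3
    have h4 : (fun J => (chiK W.K a (1 : Fin 2) * T) (J ∘ Equiv.swap (0 : Fin 2) 1)) = s := by
      funext J
      rw [hT, Pi.mul_apply, Pi.mul_apply, ← mul_assoc]
      have h5 : (J ∘ Equiv.swap (0 : Fin 2) 1) ∘ Equiv.swap (0 : Fin 2) 1 = J := by
        funext l
        simp
      have h6 : chiK W.K a (1 : Fin 2) (J ∘ Equiv.swap (0 : Fin 2) 1) *
          chiK W.K a (1 : Fin 2) (J ∘ Equiv.swap (0 : Fin 2) 1) = 1 := by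
        rw [chiK, ← pow_add, ← two_mul, pow_mul, neg_one_sq, one_pow]
      rw [h6, one_mul, h5]
    rw [h4, hs] at h3
    have h5 : LinearMap.toMatrix e e (cor1 W X (clsK e (prj X 1) T)) =
        LinearMap.toMatrix e e B := by
      have h6 : LinearMap.toMatrix e e (cor1 W X (clsK e (prj X 1) T)) * (QW e)⁻¹ =
          LinearMap.toMatrix e e B * (QW e)⁻¹ := by
        ext i j
        exact congrFun h3 ![i, j]
      have h7 := congrArg (fun M => M * QW e) h6
      simpa only [Matrix.mul_assoc, Matrix.nonsing_inv_mul _ hu, Matrix.mul_one] using h7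
    have h6 := (LinearMap.toMatrix e e).injective h5
    rw [← h6]
    exact Sys.Op.corr h2
  · intro h
    obtain ⟨γ', hγ', rfl⟩ := Sys.mem_Op.1 h
    obtain ⟨γ, hγ, hγγ⟩ : ∃ γ : W.H (pw X 1), γ ∈ S.C (pw X 1) ∧ cor1 W X γ = W.corr γ' :=
      ⟨γ', hγ', rfl⟩
    rw [← hγγ]
    have h1 := opT_cor1 e he (γ := γ) (S.even hγ) hQ
    rw [h1]
    have h3 : tn e 1 γ ∈ crdK e S 2 := by
      rw [mem_crdK_succ, clsK_tn]
      exact hγ
    exact crdK_perm (S := S) e he hpar (Equiv.swap (0 : Fin 2) 1)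
      (chiK_mem (S := S) e he hpar (1 : Fin 2) _ h3)

end Pool.Agent.Q200.VL
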