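import Pool.Agent.Q200.VL.Bridge
import Pool.Agent.Q200.VL.DefsD

/-!
# The trace of products of integral classes
-/

open CategoryTheory AlgebraicGeometry TensorProduct

set_option linter.unusedSectionVars false

universe u v

namespace Pool.Agent.Q200.VL

open Module Matrix
open Pool.Agent.H914 Pool.Agent.H914.VarClass Pool.Agent.H914.VarClass.Obj
  Pool.Agent.H914.WeilCohomology
open Pool.Agent.H447 Pool.Agent.Q56.BR Pool.Agent.H281R3.HT
open Pool.Agent.Y133.Half Pool.Agent.Y121.AH Pool.Agent.Q60.ED Pool.Agent.Q60.TD Pool.Agent.Q60.NP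
open Pool.Agent.Q60.HD (wd wd_zero wd_succ wd_map wd_prj wd_append wd_PH wb_PH sum_append' par_op
  two_inv par_prod par_pw sg sg_mem sg_xp wb_xp)

variable {k : Type u} [Field k] {𝒱 : VarClass k} {ops : CycleOps 𝒱}
  {W : WeilCohomology.{u, 0} ops} {X Y Z : 𝒱.Obj} {O : ValuationSubring W.K}

lemma hom_ind {p : W.H Y → Prop} (h : ∀ i, ∀ x ∈ W.gr Y i, p x) (h0 : p 0)
    (hadd : ∀ x y, p x → p y → p (x + y)) (x : W.H Y) : p x := by
  have h2 : x ∈ ⨆ i, W.gr Y i := by
    rw [(W.isInternal Y).submodule_iSup_eq_top]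
    trivial
  exact Submodule.iSup_induction _ (motive := p) h2 h h0 hadd

/-- The trace of a product of external products. -/
lemma tr_xp_mul (a a' : W.H Y) (b b' : W.H Z) : W.tr (Y.prod Z) (xp W a b * xp W a' b') =
    (2 : W.K)⁻¹ * (W.tr Y (a * a') * (W.tr Z (b * b') + W.tr Z (par (W.isInternal Z) b * b')) +
      W.tr Y (a * par (W.isInternal Y) a') *
        (W.tr Z (b * b') - W.tr Z (par (W.isInternal Z) b * b'))) := by
  refine hom_ind (p := fun b => W.tr (Y.prod Z) (xp W a b * xp W a' b') =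
    (2 : W.K)⁻¹ * (W.tr Y (a * a') * (W.tr Z (b * b') + W.tr Z (par (W.isInternal Z) b * b')) +
      W.tr Y (a * par (W.isInternal Y) a') *
        (W.tr Z (b * b') - W.tr Z (par (W.isInternal Z) b * b')))) ?_ ?_ ?_ b
  · intro i b hb
    have hb' := PH.of (W := W) hb
    refine hom_ind (p := fun a' => W.tr (Y.prod Z) (xp W a b * xp W a' b') =
      (2 : W.K)⁻¹ * (W.tr Y (a * a') * (W.tr Z (b * b') + W.tr Z (par (W.isInternal Z) b * b')) +
        W.tr Y (a * par (W.isInternal Y) a') *
          (W.tr Z (b * b') - W.tr Z (par (W.isInternal Z) b * b')))) ?_ ?_ ?_ a'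
    · intro j a' ha'
      have ha'' := PH.of (W := W) ha'
      rw [xp_mul a a' b b' hb' ha'', map_smul, tr_xp, PH.par hb', PH.par ha'', smul_mul_assoc,
        mul_smul_comm, map_smul, map_smul, smul_eq_mul, smul_eq_mul, smul_eq_mul]
      have h2 : (2 : W.K) ≠ 0 := two_ne_zero
      rcases Nat.even_or_odd i with h | h <;> rcases Nat.even_or_odd j with h' | h'
      · rw [h.neg_one_pow, h'.neg_one_pow, (h.mul_right _).neg_one_pow]; field_simp; ring
      · rw [h.neg_one_pow, h'.neg_one_pow, (h.mul_right _).neg_one_pow]; field_simp; ring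
      · rw [h.neg_one_pow, h'.neg_one_pow, (h'.mul_left _).neg_one_pow]; field_simp; ring
      · rw [h.neg_one_pow, h'.neg_one_pow, (h.mul h').neg_one_pow]; field_simp; ring
    · have e0 : xp W (0 : W.H Y) b' = 0 := by rw [xp, map_zero, zero_mul]
      simp only [e0, mul_zero, zero_mul, map_zero, add_zero]
    · intro x y hx hy
      have e1 : W.tr Y (a * (x + y)) = W.tr Y (a * x) + W.tr Y (a * y) := by
        rw [mul_add, map_add]
      have e2 : W.tr Y (a * par (W.isInternal Y) (x + y)) =
          W.tr Y (a * par (W.isInternal Y) x) + W.tr Y (a * par (W.isInternal Y) y) := by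
        rw [map_add, mul_add, map_add]
      rw [xp_add_left, mul_add, map_add, hx, hy, e1, e2]
      ring
  · have e0 : xp W a (0 : W.H Z) = 0 := by rw [xp, map_zero, mul_zero]
    simp only [e0, mul_zero, zero_mul, map_zero, add_zero, sub_zero]
  · intro x y hx hy
    have e1 : W.tr Z ((x + y) * b') = W.tr Z (x * b') + W.tr Z (y * b') := by
      rw [add_mul, map_add]
    have e2 : W.tr Z (par (W.isInternal Z) (x + y) * b') =
        W.tr Z (par (W.isInternal Z) x * b') + W.tr Z (par (W.isInternal Z) y * b') := by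
      rw [map_add, add_mul, map_add]
    rw [xp_add_right, add_mul, map_add, hx, hy, e1, e2]
    ring

lemma mm_zero (x : Fin 1 → W.H X) : mm W X 0 x = x 0 := by
  rw [mm_apply, List.ofFn_succ, List.ofFn_zero, List.prod_singleton]
  exact W.map_id _ _

lemma mm_succ (n : ℕ) (x : Fin (n + 2) → W.H X) : mm W X (n + 1) x =
    xp W (X := pw X n) (Y := X) (mm W X n fun i => x i.castSucc) (x (Fin.last _)) := by
  rw [mm_apply, mm_apply, List.ofFn_succ', List.prod_concat, prj_last, xp, map_list_prod,
    List.map_ofFn]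
  congr 3
  funext i
  rw [prj_castSucc, W.map_comp]
  rfl

lemma mm_par (n : ℕ) (x : Fin (n + 1) → W.H X) : par (W.isInternal (pw X n)) (mm W X n x) =
    mm W X n fun i => par (W.isInternal X) (x i) := by
  induction n with
  | zero => rw [mm_zero, mm_zero]; rfl
  | succ n ih =>
    rw [mm_succ, mm_succ]
    have h1 : par (W.isInternal ((pw X n).prod X)) (xp W (X := pw X n) (Y := X)
        (mm W X n fun i => x i.castSucc) (x (Fin.last _))) =
        xp W (X := pw X n) (Y := X) (par (W.isInternal (pw X n)) (mm W X n fun i => x i.castSucc))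
          (par (W.isInternal X) (x (Fin.last _))) := by
      rw [par_prod]
      exact extOp_tmul (W := W) _ _ _ _
    refine h1.trans ?_
    rw [ih]

variable {M : Submodule O (W.H X)}

/-- The trace of the product of two products of elements of the lattice. -/
lemma tr_mm (hd : ∀ x ∈ M, ∀ y ∈ M, W.tr X (x * y) ∈ O)
    (hp : ∀ x ∈ M, par (W.isInternal X) x ∈ M) (h2 : (2 : W.K)⁻¹ ∈ O) (n : ℕ) :
    ∀ x y : Fin (n + 1) → W.H X, (∀ i, x i ∈ M) → (∀ i, y i ∈ M) →
      W.tr (pw X n) (mm W X n x * mm W X n y) ∈ O := by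
  induction n with
  | zero =>
    intro x y hx hy
    rw [mm_zero, mm_zero]
    exact hd _ (hx 0) _ (hy 0)
  | succ n ih =>
    intro x y hx hy
    rw [mm_succ, mm_succ]
    have h1 := tr_xp_mul (W := W) (Y := pw X n) (Z := X) (mm W X n fun i => x i.castSucc)
      (mm W X n fun i => y i.castSucc) (x (Fin.last _)) (y (Fin.last _))
    rw [mm_par] at h1
    refine (congrArg (fun t => t ∈ O) h1).mpr ?_
    have e1 := ih (fun i => x i.castSucc) (fun i => y i.castSucc) (fun i => hx _) fun i => hy _
    have e2 := ih (fun i => x i.castSucc) (fun i => par (W.isInternal X) (y i.castSucc))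
      (fun i => hx _) fun i => hp _ (hy _)
    have e3 := hd _ (hx (Fin.last _)) _ (hy (Fin.last _))
    have e4 := hd _ (hp _ (hx (Fin.last _))) _ (hy (Fin.last _))
    exact mul_mem h2 (add_mem (mul_mem e1 (add_mem e3 e4)) (mul_mem e2 (sub_mem e3 e4)))

lemma nu_add {F : Type} [Field F] (O : ValuationSubring F) {x y : F} (hx : x ∈ O.nonunits)
    (hy : y ∈ O.nonunits) : x + y ∈ O.nonunits := by
  rw [ValuationSubring.mem_nonunits_iff] at hx hy ⊢
  exact lt_of_le_of_lt (O.valuation.map_add _ _) (max_lt hx hy)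

lemma nu_zero {F : Type} [Field F] (O : ValuationSubring F) : (0 : F) ∈ O.nonunits := by
  rw [ValuationSubring.mem_nonunits_iff, map_zero]
  exact zero_lt_one

/-- The trace of the product of an integral class and a class which is congruent to zero. -/
lemma tr_zeroMod (hd : ∀ x ∈ M, ∀ y ∈ M, W.tr X (x * y) ∈ O)
    (hp : ∀ x ∈ M, par (W.isInternal X) x ∈ M) (h2 : (2 : W.K)⁻¹ ∈ O) {n : ℕ}
    {c d : W.H (pw X n)}
    (hc : IsZeroMod O (M : Set (W.H X)) (fun i => W.map (prj X n i)) c)
    (hdd : IsIntegralFor (M : Set (W.H X)) (fun i => W.map (prj X n i)) d) :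
    W.tr (pw X n) (c * d) ∈ O.nonunits := by
  have h1 : ∀ x : Fin (n + 1) → W.H X, (∀ i, x i ∈ M) →
      W.tr (pw X n) ((List.ofFn fun i => W.map (prj X n i) (x i)).prod * d) ∈ O := by
    intro x hx
    rw [IsIntegralFor] at hdd
    induction hdd using AddSubgroup.closure_induction with
    | mem y hy =>
      obtain ⟨y, hy, rfl⟩ := hy
      rw [← mm_apply, ← mm_apply]
      exact tr_mm hd hp h2 n x y hx hy
    | zero => rw [mul_zero, map_zero]; exact zero_mem _
    | add y z _ _ hy hz => rw [mul_add, map_add]; exact add_mem hy hz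
    | neg y _ hy => rw [mul_neg, map_neg]; exact neg_mem hy
  rw [IsZeroMod] at hc
  induction hc using AddSubgroup.closure_induction with
  | mem y hy =>
    obtain ⟨r, hr, x, hx, rfl⟩ := hy
    rw [smul_mul_assoc, map_smul, smul_eq_mul]
    exact nu_mul O hr (h1 x hx)
  | zero => rw [zero_mul, map_zero]; exact nu_zero O
  | add y z _ _ hy hz => rw [add_mul, map_add]; exact nu_add O hy hz
  | neg y _ hy =>
    rw [neg_mul, map_neg]
    have h3 := nu_mul O hy (neg_mem (one_mem O))
    rwa [mul_neg_one] at h3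

/-- Classes with coordinates in the maximal ideal. -/
lemma zeroMod_of {ι : Type} [Fintype ι] [DecidableEq ι] (f : Basis ι W.K (W.H X))
    (hM : M = Submodule.span O (Set.range f)) (n : ℕ) {c : W.H (pw X n)}
    (h : ∀ w, (wb f n).repr c w ∈ O.nonunits) :
    IsZeroMod O (M : Set (W.H X)) (fun i => W.map (prj X n i)) c := by
  rw [IsZeroMod, ← (wb f n).sum_repr c]
  refine AddSubgroup.sum_mem _ fun w _ => AddSubgroup.subset_closure
    ⟨_, h w, fun i => f (w i), fun i => basis_mem f hM _, ?_⟩
  rw [wb_eq]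

/-- Lattices which are stable under the parity operator. -/
lemma split_iff (h2 : (2 : W.K)⁻¹ ∈ O) :
    IsSplitSet (PH W X 0) (PH W X 1) (M : Set (W.H X)) ↔
      ∀ x ∈ M, par (W.isInternal X) x ∈ M := by
  constructor
  · intro h x hx
    have h3 : ∀ x : W.H X, ∃ y ∈ PH W X 0, ∃ z ∈ PH W X 1, x = y + z := by
      intro x
      refine hom_ind (p := fun x => ∃ y ∈ PH W X 0, ∃ z ∈ PH W X 1, x = y + z) ?_ ?_ ?_ x
      · intro i x hx
        rcases Nat.mod_two_eq_zero_or_one i with hi | hi
        · exact ⟨x, PH.of' (by omega) hx, 0, Submodule.zero_mem _, (add_zero x).symm⟩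
        · exact ⟨0, Submodule.zero_mem _, x, PH.of' (by omega) hx, (zero_add x).symm⟩
      · exact ⟨0, Submodule.zero_mem _, 0, Submodule.zero_mem _, (add_zero _).symm⟩
      · rintro _ _ ⟨y, hy, z, hz, rfl⟩ ⟨y', hy', z', hz', rfl⟩
        exact ⟨y + y', Submodule.add_mem _ hy hy', z + z', Submodule.add_mem _ hz hz', by abel⟩
    obtain ⟨y, hy, z, hz, rfl⟩ := h3 x
    obtain ⟨hy', hz'⟩ := h y hy z hz hx
    rw [map_add, PH.par hy, PH.par hz, pow_zero, one_smul, pow_one, neg_smul, one_smul]
    exact Submodule.add_mem _ hy' (Submodule.neg_mem _ hz')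
  · intro h x hx y hy hxy
    have h3 := h _ hxy
    rw [map_add, PH.par hx, PH.par hy, pow_zero, one_smul, pow_one, neg_smul, one_smul] at h3
    have h4 := Submodule.add_mem _ hxy h3
    have h5 : x + y + (x + -y) = x + x := by abel
    rw [h5] at h4
    have h6 := M.smul_mem (⟨_, h2⟩ : O) h4
    have h7 : (⟨(2 : W.K)⁻¹, h2⟩ : O) • (x + x) = x := two_inv x
    rw [h7] at h6
    refine ⟨h6, ?_⟩
    have h8 := Submodule.sub_mem _ hxy h6
    rw [add_sub_cancel_left] at h8
    exact h8

end Pool.Agent.Q200.VL
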